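import Mathlib

set_option autoImplicit false

/-!
# A counting lemma (power series method)

For weights satisfying `∑ (1/4)^(R τ - 1) ≤ 2` there is an infinite sequence over six letters with
no run of length `R τ` of agreements with its shift by `τ * N`.
-/

namespace Pool.Agent.URT

open Finset

section count

variable (N : ℕ) (R : ℕ → ℕ)

/-- `w` (latest letter first) ends with a forbidden run for the offset `τ * N`. -/
def BadEnd (τ : ℕ) (w : List (Fin 6)) : Prop :=
  R τ + τ * N ≤ w.length ∧ ∀ l < R τ, w[l]? = w[l + τ * N]?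

open scoped Classical in
/-- Valid words of length `n` (latest letter first). -/
noncomputable def VV : ℕ → Finset (List (Fin 6))
  | 0 => {[]}
  | n + 1 => (((univ : Finset (Fin 6)) ×ˢ VV n).image (fun x => x.1 :: x.2)).filter
      (fun w => ∀ τ ∈ Icc 1 n, ¬ BadEnd N R τ w)

variable {N R}

lemma length_of_mem {n : ℕ} {w : List (Fin 6)} (h : w ∈ VV N R n) : w.length = n := by
  induction n generalizing w with
  | zero => simp [VV] at h; simp [h]
  | succ n ih =>
    simp only [VV, mem_filter, mem_image, mem_product, mem_univ, true_and, Prod.exists] at h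
    obtain ⟨⟨a, f, hf, rfl⟩, -⟩ := h
    simp [ih hf]

lemma tail_mem {n : ℕ} {a : Fin 6} {w : List (Fin 6)} (h : a :: w ∈ VV N R (n + 1)) :
    w ∈ VV N R n := by
  simp only [VV, mem_filter, mem_image, mem_product, mem_univ, true_and, Prod.exists] at h
  obtain ⟨⟨b, f, hf, h1⟩, -⟩ := h
  simp only [List.cons.injEq] at h1
  rw [← h1.2]; exact hf

lemma drop_mem {m : ℕ} : ∀ {n : ℕ} {w : List (Fin 6)}, w ∈ VV N R (n + m) → w.drop m ∈ VV N R n := by
  induction m with
  | zero => intro n w h; simpa using h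
  | succ m ih =>
    intro n w h
    have hl := length_of_mem h
    match w, hl with
    | a :: w', _ =>
      rw [List.drop_succ_cons]
      exact ih (tail_mem (n := n + m) h)

lemma drop_mem' {i j : ℕ} (hij : i ≤ j) {w : List (Fin 6)} (h : w ∈ VV N R j) :
    w.drop (j - i) ∈ VV N R i := by
  obtain ⟨m, rfl⟩ := Nat.exists_eq_add_of_le hij
  rw [Nat.add_sub_cancel_left]
  exact drop_mem h

lemma not_badEnd {n : ℕ} {w : List (Fin 6)} (h : w ∈ VV N R (n + 1)) {τ : ℕ} (h1 : 1 ≤ τ)
    (h2 : τ ≤ n) : ¬ BadEnd N R τ w := by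
  simp only [VV, mem_filter] at h
  exact h.2 τ (mem_Icc.mpr ⟨h1, h2⟩)

open scoped Classical in
lemma card_image (n : ℕ) :
    (((univ : Finset (Fin 6)) ×ˢ VV N R n).image (fun x => x.1 :: x.2)).card
      = 6 * (VV N R n).card := by
  rw [card_image_of_injective]
  · simp
  · rintro ⟨a, f⟩ ⟨b, g⟩ h
    simp only [List.cons.injEq] at h
    exact Prod.ext h.1 h.2

/-- Two words with the same `BadEnd` pattern and the same past agree. -/
lemma badEnd_inj {τ : ℕ} {w w' : List (Fin 6)} (hτ : 1 ≤ τ * N) (hl : w.length = w'.length)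
    (h : BadEnd N R τ w) (h' : BadEnd N R τ w') (hd : w.drop (R τ) = w'.drop (R τ)) : w = w' := by
  apply List.ext_getElem? 
  have key : ∀ m i : ℕ, w.length ≤ i + m → w[i]? = w'[i]? := by
    intro m
    induction m with
    | zero =>
      intro i hi
      rw [List.getElem?_eq_none (by omega), List.getElem?_eq_none (by omega)]
    | succ m ih =>
      intro i hi
      by_cases hR : i < R τ
      · rw [h.2 i hR, h'.2 i hR]
        exact ih _ (by omega)
      · have e1 : w[i]? = (w.drop (R τ))[i - R τ]? := by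
          rw [List.getElem?_drop]; congr 1; omega
        have e2 : w'[i]? = (w'.drop (R τ))[i - R τ]? := by
          rw [List.getElem?_drop]; congr 1; omega
        rw [e1, e2, hd]
  intro i
  exact key w.length i (by omega)

open scoped Classical in
lemma card_bad (hN : 1 ≤ N) {n τ : ℕ} (hτ : 1 ≤ τ) (hR : 1 ≤ R τ) (hn : R τ ≤ n + 1) :
    ((((univ : Finset (Fin 6)) ×ˢ VV N R n).image (fun x => x.1 :: x.2)).filter
      (BadEnd N R τ)).card ≤ (VV N R (n + 1 - R τ)).card := by
  apply card_le_card_of_injOn (fun w => w.drop (R τ))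
  · intro w hw
    rw [mem_coe, mem_filter] at hw
    simp only [mem_image, mem_product, mem_univ, true_and, Prod.exists] at hw
    obtain ⟨⟨a, f, hf, rfl⟩, -⟩ := hw
    obtain ⟨r, hr⟩ : ∃ r, R τ = r + 1 := ⟨R τ - 1, by omega⟩
    have : n = (n + 1 - R τ) + r := by omega
    rw [this] at hf
    have h2 := drop_mem hf
    simp only [mem_coe]
    rw [hr, List.drop_succ_cons]
    rw [hr] at h2
    exact h2
  · intro w hw w' hw' hd
    rw [mem_coe, mem_filter] at hw hw'
    simp only [mem_image, mem_product, mem_univ, true_and, Prod.exists] at hw hw'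
    obtain ⟨⟨a, f, hf, rfl⟩, h⟩ := hw
    obtain ⟨⟨a', f', hf', rfl⟩, h'⟩ := hw'
    exact badEnd_inj (Nat.mul_pos hτ hN) (by simp [length_of_mem hf, length_of_mem hf']) h h' hd

lemma badEnd_bound (hN : 1 ≤ N) {n τ : ℕ} (hτ : 1 ≤ τ) {w : List (Fin 6)} (hw : w.length = n + 1)
    (h : BadEnd N R τ w) : R τ ≤ n + 1 := by
  have := h.1
  have h1 : 1 ≤ τ * N := Nat.mul_pos hτ hN
  omega

/-- Growth of the number of valid words. -/
theorem card_growth (hN : 1 ≤ N) (hR : ∀ τ, 1 ≤ τ → 1 ≤ R τ)
    (hsum : ∀ n : ℕ, ∑ τ ∈ Icc 1 n, (1 / 4 : ℝ) ^ (R τ - 1) ≤ 2) :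
    ∀ n : ℕ, (4 : ℝ) * (VV N R n).card ≤ (VV N R (n + 1)).card := by
  classical
  intro n
  induction n using Nat.strong_induction_on with
  | _ n ih =>
    have hpow : ∀ j, j ≤ n → (4 : ℝ) ^ j * (VV N R (n - j)).card ≤ (VV N R n).card := by
      intro j
      induction j with
      | zero => intro _; simp
      | succ j ihj =>
        intro hj
        have h1 := ih (n - (j + 1)) (by omega)
        have h2 := ihj (by omega)
        have h3 : n - (j + 1) + 1 = n - j := by omega
        rw [h3] at h1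
        calc (4 : ℝ) ^ (j + 1) * (VV N R (n - (j + 1))).card
            = 4 ^ j * (4 * (VV N R (n - (j + 1))).card) := by ring
          _ ≤ 4 ^ j * (VV N R (n - j)).card := by gcongr
          _ ≤ _ := h2
    set I := (((univ : Finset (Fin 6)) ×ˢ VV N R n).image (fun x => x.1 :: x.2)) with hI
    have hlen : ∀ w ∈ I, w.length = n + 1 := by
      intro w hw
      simp only [hI, mem_image, mem_product, mem_univ, true_and, Prod.exists] at hw
      obtain ⟨a, f, hf, rfl⟩ := hw
      simp [length_of_mem hf]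
    have hbad : ∀ τ ∈ Icc 1 n, ((I.filter (BadEnd N R τ)).card : ℝ)
        ≤ (1 / 4 : ℝ) ^ (R τ - 1) * (VV N R n).card := by
      intro τ hτ
      rw [mem_Icc] at hτ
      by_cases hle : R τ ≤ n + 1
      · have h1 : ((I.filter (BadEnd N R τ)).card : ℝ) ≤ (VV N R (n + 1 - R τ)).card := by
          exact_mod_cast card_bad hN hτ.1 (hR τ hτ.1) hle
        refine h1.trans ?_
        have h2 := hpow (R τ - 1) (by omega)
        have h3 : n - (R τ - 1) = n + 1 - R τ := by
          have := hR τ hτ.1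
          omega
        rw [h3] at h2
        have h4 : (1 / 4 : ℝ) ^ (R τ - 1) * (4 ^ (R τ - 1) * (VV N R (n + 1 - R τ)).card)
            ≤ (1 / 4 : ℝ) ^ (R τ - 1) * (VV N R n).card := by gcongr
        rw [← mul_assoc, ← mul_pow] at h4
        norm_num at h4
        norm_num
        exact h4
      · have : I.filter (BadEnd N R τ) = ∅ := by
          rw [filter_eq_empty_iff]
          intro w hw hb
          exact hle (badEnd_bound hN hτ.1 (hlen w hw) hb)
        rw [this]
        simp
    have hcard : (6 : ℝ) * (VV N R n).card ≤ (VV N R (n + 1)).card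
        + ∑ τ ∈ Icc 1 n, ((I.filter (BadEnd N R τ)).card : ℝ) := by
      have h1 : I.card = 6 * (VV N R n).card := card_image n
      have h2 : I ⊆ VV N R (n + 1) ∪ (Icc 1 n).biUnion (fun τ => I.filter (BadEnd N R τ)) := by
        intro w hw
        rw [mem_union, mem_biUnion]
        by_cases hb : ∃ τ ∈ Icc 1 n, BadEnd N R τ w
        · obtain ⟨τ, hτ, hb⟩ := hb
          exact Or.inr ⟨τ, hτ, mem_filter.mpr ⟨hw, hb⟩⟩
        · left
          push Not at hb
          simp only [VV, mem_filter]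
          exact ⟨hw, hb⟩
      have h3 := (card_le_card h2).trans (card_union_le _ _)
      have h4 := h3.trans (Nat.add_le_add_left card_biUnion_le _)
      rw [h1] at h4
      exact_mod_cast h4
    have hs : ∑ τ ∈ Icc 1 n, ((I.filter (BadEnd N R τ)).card : ℝ) ≤ 2 * (VV N R n).card := by
      calc _ ≤ ∑ τ ∈ Icc 1 n, (1 / 4 : ℝ) ^ (R τ - 1) * (VV N R n).card := sum_le_sum hbad
        _ = (∑ τ ∈ Icc 1 n, (1 / 4 : ℝ) ^ (R τ - 1)) * (VV N R n).card := by rw [sum_mul]
        _ ≤ 2 * (VV N R n).card := by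
            gcongr
            exact hsum n
    linarith

theorem VV_nonempty (hN : 1 ≤ N) (hR : ∀ τ, 1 ≤ τ → 1 ≤ R τ)
    (hsum : ∀ n : ℕ, ∑ τ ∈ Icc 1 n, (1 / 4 : ℝ) ^ (R τ - 1) ≤ 2) (n : ℕ) :
    (VV N R n).Nonempty := by
  induction n with
  | zero => simp [VV]
  | succ n ih =>
    have h1 := card_growth hN hR hsum n
    have h2 : 0 < (VV N R n).card := card_pos.mpr ih
    have h3 : (0 : ℝ) < (VV N R (n + 1)).card := by
      have : (0 : ℝ) < (VV N R n).card := by exact_mod_cast h2
      linarith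
    exact card_pos.mp (by exact_mod_cast h3)

/-- The counting lemma. -/
theorem exists_seq (hN : 1 ≤ N) (hR : ∀ τ, 1 ≤ τ → 1 ≤ R τ)
    (hsum : ∀ n : ℕ, ∑ τ ∈ Icc 1 n, (1 / 4 : ℝ) ^ (R τ - 1) ≤ 2) :
    ∃ c : ℕ → Fin 6, ∀ τ, 1 ≤ τ → ∀ n, ∃ l < R τ, c (n + l) ≠ c (n + l + τ * N) := by
  classical
  let α : ℕ → Type := fun n => {w : List (Fin 6) // w ∈ VV N R n}
  have hfin : ∀ n, Finite (α n) := fun n => inferInstanceAs (Finite {w // w ∈ VV N R n})
  have hne : ∀ n, Nonempty (α n) := fun n => by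
    obtain ⟨w, hw⟩ := VV_nonempty hN hR hsum n
    exact ⟨⟨w, hw⟩⟩
  let π : {i j : ℕ} → (hij : i ≤ j) → α j → α i := fun {i j} hij w =>
    ⟨w.1.drop (j - i), drop_mem' hij w.2⟩
  obtain ⟨f, hf⟩ := exists_seq_forall_proj_of_forall_finite (α := α) π
    (by intro i a; apply Subtype.ext; simp [π])
    (by
      intro i j k hij hjk a
      apply Subtype.ext
      simp only [π, List.drop_drop]
      congr 1
      omega)
    (by intro i a; exact Set.toFinite _)
  have hlen : ∀ n, (f n).1.length = n := fun n => length_of_mem (f n).2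
  -- the sequence
  have hget : ∀ n i : ℕ, i < n → (f n).1[n - 1 - i]? = (f (i + 1)).1[0]? := by
    intro n i hi
    have h := hf (show i + 1 ≤ n by omega)
    have h2 : (f (i + 1)).1 = (f n).1.drop (n - (i + 1)) := (congrArg Subtype.val h).symm
    rw [h2, List.getElem?_drop]
    congr 1
    omega
  let c : ℕ → Fin 6 := fun i => ((f (i + 1)).1[0]?).getD 0
  have hc : ∀ n i : ℕ, i < n → (f n).1[n - 1 - i]? = some (c i) := by
    intro n i hi
    rw [hget n i hi]
    simp only [c]
    have : 0 < (f (i + 1)).1.length := by rw [hlen]; omega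
    rw [List.getElem?_eq_getElem this]
    simp
  refine ⟨c, fun τ hτ n => ?_⟩
  by_contra hcon
  push Not at hcon
  set L := n + R τ + τ * N with hL
  have h1 : 1 ≤ τ * N := Nat.mul_pos hτ hN
  have h2 : 1 ≤ R τ := hR τ hτ
  obtain ⟨L', hL'⟩ : ∃ L', L = L' + 1 := ⟨L - 1, by omega⟩
  have hw := (f L).2
  have hτL : τ ≤ L' := by
    have : τ * 1 ≤ τ * N := Nat.mul_le_mul_left τ hN
    omega
  have hnb : ¬ BadEnd N R τ (f L).1 := by
    rw [hL'] at hw ⊢
    exact not_badEnd hw hτ hτL
  apply hnb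
  refine ⟨by rw [hlen]; omega, fun l hl => ?_⟩
  have e1 := hc L (n + (R τ - 1 - l) + τ * N) (by omega)
  have e2 := hc L (n + (R τ - 1 - l)) (by omega)
  have i1 : L - 1 - (n + (R τ - 1 - l) + τ * N) = l := by omega
  have i2 : L - 1 - (n + (R τ - 1 - l)) = l + τ * N := by omega
  rw [i1] at e1
  rw [i2] at e2
  rw [e1, e2, hcon (R τ - 1 - l) (by omega)]

end count

end Pool.Agent.URT
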