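import Mathlib

set_option autoImplicit false

/-!
# Definitions: the undirected repetition threshold
-/

namespace Pool.Agent.URT

/-- `u` is an undirected `α`-power: `u = v x v'` with `v` nonempty, `v'` equal to `v` or to its
reversal, and `|v x v'| / |v x| = α`. -/
def IsUndirectedPower {A : Type} (α : ℝ) (u : List A) : Prop :=
  ∃ v x v' : List A, v ≠ [] ∧ (v' = v ∨ v' = v.reverse) ∧ u = v ++ x ++ v' ∧
    ((v ++ x ++ v').length : ℝ) / ((v ++ x).length : ℝ) = α

/-- The factor of length `n` of the infinite word `w` starting at the position `i`. -/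
def factor {A : Type} (w : ℕ → A) (i n : ℕ) : List A := (List.range n).map (fun j => w (i + j))

/-- The infinite word `w` is undirected `α`-free: none of its factors is an undirected
`β`-power with `β ≥ α`. -/
def UndirectedFree {A : Type} (α : ℝ) (w : ℕ → A) : Prop :=
  ∀ β : ℝ, α ≤ β → ∀ i n : ℕ, ¬ IsUndirectedPower β (factor w i n)

/-- `F_u(α)`: the least `k` such that some infinite word over a `k`-letter alphabet is
undirected `α`-free. -/
noncomputable def Fu (α : ℝ) : ℕ := sInf {k : ℕ | ∃ w : ℕ → Fin k, UndirectedFree α w}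

/-- The undirected repetition threshold `RT_u(k) = inf {α : F_u(α) = k}`, where
`1 < α ≤ 2`. -/
noncomputable def RTu (k : ℕ) : ℝ := sInf {α : ℝ | 1 < α ∧ α ≤ 2 ∧ Fu α = k}

end Pool.Agent.URT
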