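import Mathlib

set_option autoImplicit false

/-!
# Checking functions for the block gadgets

Arrangements of a block of `B` letters are packed in base `16`: the letter at offset `o` is the
digit `dig s o`.  The functions are written with recursors and raw operations on natural numbers
so that the kernel evaluates them quickly.
-/

namespace Pool.Agent.URT

/-- The letter at offset `o`. -/
def dig (s o : ℕ) : ℕ := Nat.mod (Nat.div s (Nat.pow (nat_lit 16) o)) (nat_lit 16)

/-- The packed factor of length `n` at offset `o`. -/
def fac (s o n : ℕ) : ℕ := Nat.mod (Nat.div s (Nat.pow (nat_lit 16) o)) (Nat.pow (nat_lit 16) n)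

lemma dig_def (s o : ℕ) : dig s o = s / 16 ^ o % 16 := rfl

lemma fac_def (s o n : ℕ) : fac s o n = s / 16 ^ o % 16 ^ n := rfl

/-- Conjunction. -/
def band (x y : Bool) : Bool := @Bool.rec (fun _ => Bool) false y x

lemma band_iff {x y : Bool} : band x y = true ↔ x = true ∧ y = true := by
  cases x <;> cases y <;> decide

/-- `p x` for all `x` in `l`. -/
noncomputable def allL (p : ℕ → Bool) (l : List ℕ) : Bool :=
  @List.rec ℕ (fun _ => Bool) true (fun x _ ih => @Bool.rec (fun _ => Bool) false ih (p x)) l

lemma allL_iff {p : ℕ → Bool} {l : List ℕ} : allL p l = true ↔ ∀ x ∈ l, p x = true := by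
  induction l with
  | nil => simp [allL]
  | cons a l ih =>
    have : allL p (a :: l) = band (p a) (allL p l) := rfl
    rw [this, band_iff, ih]
    simp

/-- `x` is not in `l`. -/
noncomputable def noneEq (x : ℕ) (l : List ℕ) : Bool :=
  @List.rec ℕ (fun _ => Bool) true
    (fun y _ ih => @Bool.rec (fun _ => Bool) ih false (Nat.beq x y)) l

lemma noneEq_spec {x : ℕ} {l : List ℕ} (h : noneEq x l = true) : x ∉ l := by
  induction l with
  | nil => simp
  | cons a l ih =>
    have h1 : noneEq x (a :: l) = @Bool.rec (fun _ => Bool) (noneEq x l) false (Nat.beq x a) := rfl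
    rw [h1] at h
    rw [List.mem_cons]
    rintro (h2 | h2)
    · rw [h2, Nat.beq_refl] at h
      exact absurd (show false = true from h) (by decide)
    · cases h3 : Nat.beq x a
      · rw [h3] at h
        exact ih h h2
      · rw [h3] at h
        exact absurd (show false = true from h) (by decide)

/-- No common element. -/
noncomputable def disj (l1 l2 : List ℕ) : Bool := allL (fun x => noneEq x l2) l1

lemma disj_spec {l1 l2 : List ℕ} (h : disj l1 l2 = true) {x : ℕ} (h1 : x ∈ l1) (h2 : x ∈ l2) :
    False := noneEq_spec (allL_iff.mp h x h1) h2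

/-- The list of the factors of length `n` at the offsets `0, …, m - 1`. -/
noncomputable def facs (s n m : ℕ) : List ℕ :=
  @Nat.rec (fun _ => List ℕ) [] (fun m ih => fac s m n :: ih) m

lemma mem_facs {s n : ℕ} : ∀ {m j : ℕ}, j < m → fac s j n ∈ facs s n m := by
  intro m
  induction m with
  | zero => intro j hj; omega
  | succ m ih =>
    intro j hj
    have : facs s n (m + 1) = fac s m n :: facs s n m := rfl
    rw [this, List.mem_cons]
    rcases Nat.lt_or_ge j m with h | h
    · exact Or.inr (ih h)
    · left
      have : j = m := by omega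
      rw [this]

/-- The list `m - 1, …, 0`. -/
noncomputable def down (m : ℕ) : List ℕ := @Nat.rec (fun _ => List ℕ) [] (fun m ih => m :: ih) m

lemma mem_down : ∀ {m j : ℕ}, j < m → j ∈ down m := by
  intro m
  induction m with
  | zero => intro j hj; omega
  | succ m ih =>
    intro j hj
    have : down (m + 1) = m :: down m := rfl
    rw [this, List.mem_cons]
    rcases Nat.lt_or_ge j m with h | h
    · exact Or.inr (ih h)
    · exact Or.inl (by omega)

/-- The packed reversal of an arrangement of length `n`. -/
noncomputable def rvc (n : ℕ) : ℕ → ℕ :=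
  @Nat.rec (fun _ => ℕ → ℕ) (fun _ => nat_lit 0)
    (fun n ih b => Nat.add (ih (Nat.div b (nat_lit 16)))
      (Nat.mul (Nat.mod b (nat_lit 16)) (Nat.pow (nat_lit 16) n))) n

/-- The check for two arrangements at time distance `t`; `ra` is the reversal of `a`. -/
noncomputable def pairOK (B t a ra b : ℕ) : Bool :=
  band (disj (facs a (Nat.succ t) (Nat.sub B t)) (facs b (Nat.succ t) (Nat.sub B t)))
  (band (disj (facs ra (Nat.succ t) (Nat.sub B t)) (facs b (Nat.succ t) (Nat.sub B t)))
  (band (@Bool.rec (fun _ => Bool)
      (@Bool.rec (fun _ => Bool) true false (Nat.beq (fac a (nat_lit 0) (Nat.succ (Nat.div (Nat.succ t) (nat_lit 2))))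
        (fac b (nat_lit 0) (Nat.succ (Nat.div (Nat.succ t) (nat_lit 2))))))
      true (Nat.ble B (Nat.div (Nat.succ t) (nat_lit 2))))
    (@Bool.rec (fun _ => Bool)
      (@Bool.rec (fun _ => Bool) true false
        (Nat.beq (fac a (Nat.sub B (Nat.succ (Nat.div t (nat_lit 2)))) (Nat.succ (Nat.div t (nat_lit 2))))
          (fac b (Nat.sub B (Nat.succ (Nat.div t (nat_lit 2)))) (Nat.succ (Nat.div t (nat_lit 2))))))
      true (Nat.ble B (Nat.div t (nat_lit 2))))))

/-- Displacement check. -/
noncomputable def dispOK (B a b : ℕ) : Bool :=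
  allL (fun o => allL (fun o' => @Bool.rec (fun _ => Bool) true false (Nat.beq (dig b o') (dig a o)))
    (down (Nat.sub o (nat_lit 2)))) (down B)

/-- Permutation check. -/
noncomputable def permOK (B a : ℕ) : Bool :=
  allL (fun o => band (Nat.ble (Nat.succ (dig a o)) B)
    (allL (fun o' => @Bool.rec (fun _ => Bool) true false (Nat.beq (dig a o') (dig a o))) (down o)))
    (down B)

/-- Search trees for the labels. -/
inductive LTree
  | l : LTree
  | n : LTree → ℕ → ℕ → LTree → LTree

/-- Look up. -/
noncomputable def LTree.find (L : LTree) (x : ℕ) : ℕ :=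
  @LTree.rec (fun _ => ℕ) (nat_lit 0)
    (fun _ k v _ ih1 ih2 => @Bool.rec (fun _ => ℕ)
      (@Bool.rec (fun _ => ℕ) ih1 ih2 (Nat.ble k x)) v (Nat.beq x k)) L

/-- Force the evaluation of a number. -/
def force (n : ℕ) (f : ℕ → Bool) : Bool :=
  @Nat.rec (fun _ => Bool) (f (nat_lit 0)) (fun m _ => f (Nat.succ m)) n

lemma force_eq (n : ℕ) (f : ℕ → Bool) : force n f = f n := by cases n <;> rfl

/-- Check an arrangement against the next ones. -/
noncomputable def chkHead (B a ra : ℕ) (bs : List ℕ) : ℕ → Bool :=
  @List.rec ℕ (fun _ => ℕ → Bool) (fun _ => true)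
    (fun b _ ih t => force t (fun t => @Bool.rec (fun _ => Bool)
      (band (pairOK B t a ra b) (ih (Nat.succ t))) true (Nat.ble (nat_lit 18) t))) bs

/-- Displacement against the next arrangement. -/
noncomputable def dispHead (B a : ℕ) (bs : List ℕ) : Bool :=
  @List.rec ℕ (fun _ => Bool) true (fun b _ _ => dispOK B a b) bs

/-- Check the arrangements of a list, the first one having phase `ψ`; stop at phase `36`. -/
noncomputable def chk (B : ℕ) (L : LTree) (c d : ℕ) (l : List ℕ) : ℕ → Bool :=
  @List.rec ℕ (fun _ => ℕ → Bool) (fun _ => true)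
    (fun a bs ih ψ => force ψ (fun ψ => @Bool.rec (fun _ => Bool)
      (band (permOK B a)
      (band (Nat.beq (L.find (fac a (nat_lit 0) B))
        (Nat.add (Nat.mul (nat_lit 6) ψ) (@Bool.rec (fun _ => ℕ) d c (Nat.ble ψ (nat_lit 28)))))
      (band (dispHead B a bs)
      (band (force (rvc B a) (fun ra => chkHead B a ra bs (nat_lit 1))) (ih (Nat.succ ψ))))))
      true (Nat.ble (nat_lit 36) ψ))) l

/-- The complete check for the data of one block size and given variants. -/
noncomputable def checkCD (B : ℕ) (P : List (List ℕ)) (Q : List (List (List ℕ))) (L : LTree)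
    (c d : ℕ) : Bool :=
  band (Nat.beq (P.getD c []).length 22) (band (Nat.beq ((Q.getD c []).getD d []).length 14)
    (chk B L c d (P.getD c [] ++ ((Q.getD c []).getD d [] ++ P.getD d [])) (nat_lit 0)))

/-- The complete check for the data of one block size. -/
noncomputable def checkAll (B : ℕ) (P : List (List ℕ)) (Q : List (List (List ℕ))) (L : LTree) :
    Bool :=
  allL (fun c => allL (fun d => checkCD B P Q L c d) (down 6)) (down 6)

end Pool.Agent.URT
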