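import Pool.Agent.MP_c4941a_URT.Gadget

set_option autoImplicit false

/-!
# Meaning of the checks
-/

namespace Pool.Agent.URT

lemma fac_eq {s s' o o' : ℕ} : ∀ {n : ℕ}, (∀ l < n, dig s (o + l) = dig s' (o' + l)) →
    fac s o n = fac s' o' n := by
  intro n
  induction n with
  | zero => intro _; simp [fac_def, Nat.mod_one]
  | succ n ih =>
    intro h
    have h1 := ih (fun l hl => h l (by omega))
    have h2 := h n (by omega)
    rw [fac_def, fac_def] at h1 ⊢
    rw [dig_def, dig_def] at h2
    rw [Nat.mod_pow_succ, Nat.mod_pow_succ, h1, Nat.div_div_eq_div_mul, Nat.div_div_eq_div_mul,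
      ← pow_add, ← pow_add, h2]

lemma rvc_succ (n b : ℕ) : rvc (n + 1) b = rvc n (b / 16) + (b % 16) * 16 ^ n := rfl

lemma rvc_lt : ∀ (n b : ℕ), rvc n b < 16 ^ n := by
  intro n
  induction n with
  | zero => intro b; simp [rvc]
  | succ n ih =>
    intro b
    have h1 := ih (b / 16)
    have h2 : b % 16 ≤ 15 := by omega
    have h3 : (b % 16) * 16 ^ n ≤ 15 * 16 ^ n := Nat.mul_le_mul_right _ h2
    rw [rvc_succ, pow_succ]
    omega

lemma dig_rvc : ∀ (n b j : ℕ), j < n → dig (rvc n b) j = dig b (n - 1 - j) := by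
  intro n
  induction n with
  | zero => intro b j hj; omega
  | succ n ih =>
    intro b j hj
    rw [rvc_succ]
    rcases Nat.lt_or_ge j n with h | h
    · have h1 : dig (rvc n (b / 16) + (b % 16) * 16 ^ n) j = dig (rvc n (b / 16)) j := by
        obtain ⟨m, rfl⟩ : ∃ m, n = j + 1 + m := ⟨n - (j + 1), by omega⟩
        rw [dig_def, dig_def]
        have h2 : (b % 16) * 16 ^ (j + 1 + m) = 16 ^ j * (16 * ((b % 16) * 16 ^ m)) := by ring
        rw [h2, Nat.add_mul_div_left _ _ (by positivity), Nat.add_mul_mod_self_left]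
      rw [h1, ih (b / 16) j h]
      rw [dig_def, dig_def, Nat.div_div_eq_div_mul, ← pow_succ']
      congr 3
      omega
    · have hj' : j = n := by omega
      subst hj'
      have h1 := rvc_lt j (b / 16)
      rw [dig_def, dig_def, Nat.add_mul_div_right _ _ (by positivity), Nat.div_eq_of_lt h1]
      simp

/-- The properties of the data of one block size. -/
structure Gadget (B : ℕ) (G : (ℕ → Fin 6) → ℕ → ℕ → ℕ) : Prop where
  lt : ∀ e i o, o < B → G e i o < B
  inj : ∀ e i o o', o < B → o' < B → G e i o = G e i o' → o = o'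
  disp : ∀ e i o o', o < B → o' < B → G e i o = G e (i + 1) o' → o ≤ o' + 2
  fwd : ∀ e i t o o', 1 ≤ t → o + t < B → o' + t < B →
    (∀ l ≤ t, G e i (o + l) = G e (i + t) (o' + l)) → False
  bwd : ∀ e i t o o', 1 ≤ t → o + t < B → o' + t < B →
    (∀ l ≤ t, G e i (o + (t - l)) = G e (i + t) (o' + l)) → False
  suf : ∀ e i t r, 1 ≤ t → t ≤ 17 → r ≤ B →
    (∀ l < r, G e i (B - 1 - l) = G e (i + t) (B - 1 - l)) → r ≤ t / 2
  pre : ∀ e i t r, 1 ≤ t → t ≤ 17 → r ≤ B →
    (∀ l < r, G e i l = G e (i + t) l) → r ≤ (t + 1) / 2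
  lab : ∀ e i t, 1 ≤ t → (∀ o < B, G e i o = G e (i + t) o) →
    ∃ τ, 1 ≤ τ ∧ t = 36 * τ ∧ e ((i + 7) / 36) = e ((i + 7) / 36 + τ)

lemma brec_ite {x : Bool} {P Q : Bool} : @Bool.rec (fun _ => Bool) P Q x = bif x then Q else P := by
  cases x <;> rfl

lemma not_iff {x : Bool} : @Bool.rec (fun _ => Bool) true false x = true ↔ x = false := by
  cases x <;> decide

lemma nbeq_false {a b : ℕ} : Nat.beq a b = false ↔ a ≠ b := by
  constructor
  · intro h hab
    rw [hab, Nat.beq_refl] at h
    exact absurd h (by decide)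
  · intro h
    cases h2 : Nat.beq a b
    · rfl
    · exact absurd (Nat.eq_of_beq_eq_true h2) h

lemma nbeq_true {a b : ℕ} : Nat.beq a b = true ↔ a = b :=
  ⟨Nat.eq_of_beq_eq_true, fun h => by rw [h, Nat.beq_refl]⟩

/-! ### Pairs -/

lemma pairOK_spec {B t a b : ℕ} (h : pairOK B t a (rvc B a) b = true) :
    (∀ o o', o + t < B → o' + t < B → (∀ l ≤ t, dig a (o + l) = dig b (o' + l)) → False) ∧
    (∀ o o', o + t < B → o' + t < B → (∀ l ≤ t, dig a (o + (t - l)) = dig b (o' + l)) → False) ∧
    (∀ r ≤ B, (∀ l < r, dig a l = dig b l) → r ≤ (t + 1) / 2) ∧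
    (∀ r ≤ B, (∀ l < r, dig a (B - 1 - l) = dig b (B - 1 - l)) → r ≤ t / 2) := by
  unfold pairOK at h
  simp only [band_iff] at h
  obtain ⟨h1, h2, h3, h4⟩ := h
  refine ⟨?_, ?_, ?_, ?_⟩
  · intro o o' ho ho' hl
    have e : fac a o (Nat.succ t) = fac b o' (Nat.succ t) :=
      fac_eq (fun l hl' => hl l (by omega))
    refine disj_spec h1 (x := fac a o (Nat.succ t)) (mem_facs ?_) (e ▸ mem_facs ?_)
    · show o < B - t; omega
    · show o' < B - t; omega
  · intro o o' ho ho' hl
    have e : fac (rvc B a) (B - 1 - o - t) (Nat.succ t) = fac b o' (Nat.succ t) := by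
      refine fac_eq (fun l hl' => ?_)
      rw [dig_rvc B a _ (by omega), ← hl l (by omega)]
      congr 1
      omega
    refine disj_spec h2 (x := fac (rvc B a) (B - 1 - o - t) (Nat.succ t)) (mem_facs ?_)
      (e ▸ mem_facs ?_)
    · show B - 1 - o - t < B - t; omega
    · show o' < B - t; omega
  · intro r hr hl
    by_contra hcon
    push Not at hcon
    cases h5 : Nat.ble B (Nat.div (Nat.succ t) 2)
    · rw [h5] at h3
      have h6 := not_iff.mp h3
      rw [nbeq_false] at h6
      apply h6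
      refine fac_eq (fun l hl' => ?_)
      rw [Nat.zero_add]
      apply hl
      have : l < (t + 1) / 2 + 1 := hl'
      omega
    · have h6 : B ≤ (t + 1) / 2 := Nat.le_of_ble_eq_true h5
      omega
  · intro r hr hl
    by_contra hcon
    push Not at hcon
    cases h5 : Nat.ble B (Nat.div t 2)
    · have h7 : ¬ B ≤ t / 2 := fun h8 => by
        have := Nat.ble_eq_true_of_le h8
        rw [show (t / 2) = Nat.div t 2 from rfl, h5] at this
        exact absurd this (by decide)
      rw [h5] at h4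
      have h6 := not_iff.mp h4
      rw [nbeq_false] at h6
      apply h6
      refine fac_eq (fun l hl' => ?_)
      have h8 : l < t / 2 + 1 := hl'
      show dig a (B - (t / 2 + 1) + l) = dig b (B - (t / 2 + 1) + l)
      have h9 := hl (B - 1 - (B - (t / 2 + 1) + l)) (by omega)
      have h10 : B - 1 - (B - 1 - (B - (t / 2 + 1) + l)) = B - (t / 2 + 1) + l := by omega
      rwa [h10] at h9
    · have h6 : B ≤ t / 2 := Nat.le_of_ble_eq_true h5
      omega

lemma dispOK_spec {B a b : ℕ} (h : dispOK B a b = true) :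
    ∀ o o', o < B → o' < B → dig a o = dig b o' → o ≤ o' + 2 := by
  intro o o' ho ho' he
  by_contra hcon
  push Not at hcon
  unfold dispOK at h
  have h1 := allL_iff.mp h o (mem_down ho)
  have h2 := allL_iff.mp h1 o' (mem_down (show o' < o - 2 by omega))
  rw [not_iff, nbeq_false] at h2
  exact h2 he.symm

lemma permOK_spec {B a : ℕ} (h : permOK B a = true) :
    (∀ o < B, dig a o < B) ∧ (∀ o o', o < B → o' < B → dig a o = dig a o' → o = o') := by
  unfold permOK at h
  have h0 := allL_iff.mp h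
  have key : ∀ o o', o < B → o' < o → dig a o' ≠ dig a o := by
    intro o o' ho ho'
    have h1 := band_iff.mp (h0 o (mem_down ho))
    have h2 := allL_iff.mp h1.2 o' (mem_down ho')
    rwa [not_iff, nbeq_false] at h2
  refine ⟨fun o ho => ?_, fun o o' ho ho' he => ?_⟩
  · have h1 := band_iff.mp (h0 o (mem_down ho))
    exact Nat.le_of_ble_eq_true h1.1
  · rcases Nat.lt_trichotomy o o' with h1 | h1 | h1
    · exact absurd he (key o' o ho' h1)
    · exact h1
    · exact absurd he.symm (key o o' ho h1)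

lemma chkHead_cons (B a ra b : ℕ) (bs : List ℕ) (t : ℕ) :
    chkHead B a ra (b :: bs) t = @Bool.rec (fun _ => Bool)
      (band (pairOK B t a ra b) (chkHead B a ra bs (t + 1))) true (Nat.ble 18 t) := by
  have : chkHead B a ra (b :: bs) t = force t (fun t => @Bool.rec (fun _ => Bool)
      (band (pairOK B t a ra b) (chkHead B a ra bs (t + 1))) true (Nat.ble 18 t)) := rfl
  rw [this, force_eq]

lemma ble_false {a b : ℕ} (h : b < a) : Nat.ble a b = false := by
  cases h2 : Nat.ble a b
  · rfl
  · have := Nat.le_of_ble_eq_true h2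
    omega

lemma chkHead_spec {B a ra : ℕ} : ∀ {bs : List ℕ} {t : ℕ}, chkHead B a ra bs t = true →
    ∀ j, j < bs.length → t + j ≤ 17 → pairOK B (t + j) a ra (bs.getD j 0) = true := by
  intro bs
  induction bs with
  | nil => intro t _ j hj; simp at hj
  | cons b bs ih =>
    intro t h j hj ht
    rw [chkHead_cons, ble_false (show t < 18 by omega)] at h
    have h1 := band_iff.mp h
    cases j with
    | zero => simpa using h1.1
    | succ j =>
      have h2 := ih h1.2 j (by simpa using hj) (by omega)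
      rw [List.getD_cons_succ]
      rw [show t + (j + 1) = t + 1 + j by omega]
      exact h2

lemma chk_cons (B : ℕ) (L : LTree) (c d a : ℕ) (bs : List ℕ) (ψ : ℕ) :
    chk B L c d (a :: bs) ψ = @Bool.rec (fun _ => Bool)
      (band (permOK B a)
      (band (Nat.beq (L.find (fac a 0 B)) (6 * ψ + @Bool.rec (fun _ => ℕ) d c (Nat.ble ψ 28)))
      (band (dispHead B a bs)
      (band (force (rvc B a) (fun ra => chkHead B a ra bs 1)) (chk B L c d bs (ψ + 1))))))
      true (Nat.ble 36 ψ) := by
  have : chk B L c d (a :: bs) ψ = force ψ (fun ψ => @Bool.rec (fun _ => Bool)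
      (band (permOK B a)
      (band (Nat.beq (L.find (fac a 0 B)) (6 * ψ + @Bool.rec (fun _ => ℕ) d c (Nat.ble ψ 28)))
      (band (dispHead B a bs)
      (band (force (rvc B a) (fun ra => chkHead B a ra bs 1)) (chk B L c d bs (ψ + 1))))))
      true (Nat.ble 36 ψ)) := rfl
  rw [this, force_eq]

lemma chk_spec {B : ℕ} {L : LTree} {c d : ℕ} : ∀ {l : List ℕ} {ψ : ℕ},
    chk B L c d l ψ = true → ∀ i, i < l.length → ψ + i < 36 →
      permOK B (l.getD i 0) = true ∧
      L.find (fac (l.getD i 0) 0 B) = 6 * (ψ + i) + (if ψ + i ≤ 28 then c else d) ∧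
      dispHead B (l.getD i 0) (l.drop (i + 1)) = true ∧
      chkHead B (l.getD i 0) (rvc B (l.getD i 0)) (l.drop (i + 1)) 1 = true := by
  intro l
  induction l with
  | nil => intro ψ _ i hi; simp at hi
  | cons a bs ih =>
    intro ψ h i hi hψ
    rw [chk_cons, ble_false (show ψ < 36 by omega)] at h
    simp only [band_iff, force_eq, nbeq_true] at h
    obtain ⟨h1, h2, h3, h4, h5⟩ := h
    cases i with
    | zero =>
      refine ⟨by simpa using h1, ?_, by simpa using h3, by simpa using h4⟩
      simp only [List.getD_cons_zero, Nat.add_zero]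
      rw [h2]
      by_cases h6 : ψ ≤ 28
      · rw [if_pos h6, Nat.ble_eq_true_of_le h6]
      · rw [if_neg h6, ble_false (by omega)]
    | succ i =>
      have h6 := ih h5 i (by simpa using hi) (by omega)
      rw [List.getD_cons_succ, List.drop_succ_cons]
      rw [show ψ + (i + 1) = ψ + 1 + i by omega]
      exact h6

/-! ### The state function -/

section state

variable (P : List (List ℕ)) (Q : List (List (List ℕ)))

/-- The segment of arrangements for the consecutive variants `c`, `d`. -/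
def seg (c d : ℕ) : List ℕ := P.getD c [] ++ ((Q.getD c []).getD d [] ++ P.getD d [])

/-- The arrangement at time `i`. -/
def stt (e : ℕ → Fin 6) (i : ℕ) : ℕ := (seg P Q (e (i / 36)) (e (i / 36 + 1))).getD (i % 36) 0

/-- The letter at offset `o` at time `i`. -/
def GF (e : ℕ → Fin 6) (i o : ℕ) : ℕ := dig (stt P Q e i) o

variable {P Q}

lemma stt_shift {B : ℕ} {L : LTree} (h : checkAll B P Q L = true) (e : ℕ → Fin 6) (i t : ℕ)
    (ht : t ≤ 17) :
    stt P Q e (i + t) = (seg P Q (e (i / 36)) (e (i / 36 + 1))).getD (i % 36 + t) 0 := by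
  have hlen : ∀ c d : Fin 6, (P.getD c []).length = 22 ∧ ((Q.getD c []).getD d []).length = 14 := by
    intro c d
    have h1 := allL_iff.mp (allL_iff.mp h c (mem_down c.2)) d (mem_down d.2)
    unfold checkCD at h1
    rw [band_iff, band_iff, nbeq_true, nbeq_true] at h1
    exact ⟨h1.1, h1.2.1⟩
  unfold stt
  rcases Nat.lt_or_ge (i % 36 + t) 36 with h1 | h1
  · have h2 : (i + t) / 36 = i / 36 := by omega
    have h3 : (i + t) % 36 = i % 36 + t := by omega
    rw [h2, h3]
  · have h2 : (i + t) / 36 = i / 36 + 1 := by omega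
    have h3 : (i + t) % 36 = i % 36 + t - 36 := by omega
    rw [h2, h3]
    unfold seg
    have hl1 := hlen (e (i / 36)) (e (i / 36 + 1))
    have hl2 := hlen (e (i / 36 + 1)) (e (i / 36 + 1 + 1))
    rw [List.getD_append _ _ _ _ (by rw [hl2.1]; omega)]
    rw [List.getD_append_right _ _ _ _ (by rw [hl1.1]; omega)]
    rw [List.getD_append_right _ _ _ _ (by rw [hl1.1, hl1.2]; omega)]
    rw [hl1.1, hl1.2]
    congr 1

lemma seg_facts {B : ℕ} {L : LTree} (h : checkAll B P Q L = true) (e : ℕ → Fin 6) (i : ℕ) :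
    permOK B (stt P Q e i) = true ∧
    L.find (fac (stt P Q e i) 0 B) = 6 * (i % 36) +
      (if i % 36 ≤ 28 then ((e (i / 36) : Fin 6) : ℕ) else (e (i / 36 + 1) : ℕ)) ∧
    dispHead B (stt P Q e i) ((seg P Q (e (i / 36)) (e (i / 36 + 1))).drop (i % 36 + 1)) = true ∧
    chkHead B (stt P Q e i) (rvc B (stt P Q e i))
      ((seg P Q (e (i / 36)) (e (i / 36 + 1))).drop (i % 36 + 1)) 1 = true ∧
    (seg P Q (e (i / 36)) (e (i / 36 + 1))).length = 58 := by
  have h1 := allL_iff.mp (allL_iff.mp h (e (i / 36)) (mem_down (e (i / 36)).2))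
    (e (i / 36 + 1)) (mem_down (e (i / 36 + 1)).2)
  have h1' := allL_iff.mp (allL_iff.mp h (e (i / 36 + 1)) (mem_down (e (i / 36 + 1)).2))
    (e (i / 36 + 1)) (mem_down (e (i / 36 + 1)).2)
  unfold checkCD at h1 h1'
  rw [band_iff, band_iff, nbeq_true, nbeq_true] at h1 h1'
  obtain ⟨h2, h3, h4⟩ := h1
  have hlen : (seg P Q (e (i / 36)) (e (i / 36 + 1))).length = 58 := by
    unfold seg
    rw [List.length_append, List.length_append, h2, h3, h1'.1]
  have h5 := chk_spec (ψ := 0) h4 (i % 36) (by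
    have : (seg P Q (e (i / 36)) (e (i / 36 + 1))).length = 58 := hlen
    unfold seg at this
    rw [this]
    omega) (by omega)
  simp only [Nat.zero_add] at h5
  exact ⟨h5.1, h5.2.1, h5.2.2.1, h5.2.2.2, hlen⟩

lemma pair_fact {B : ℕ} {L : LTree} (h : checkAll B P Q L = true) (e : ℕ → Fin 6) (i t : ℕ)
    (ht1 : 1 ≤ t) (ht : t ≤ 17) :
    pairOK B t (stt P Q e i) (rvc B (stt P Q e i)) (stt P Q e (i + t)) = true := by
  obtain ⟨-, -, -, h1, hlen⟩ := seg_facts h e i
  have h2 := chkHead_spec h1 (t - 1) (by rw [List.length_drop, hlen]; omega) (by omega)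
  rw [show 1 + (t - 1) = t by omega] at h2
  rw [stt_shift h e i t ht]
  have h3 : ((seg P Q (e (i / 36)) (e (i / 36 + 1))).drop (i % 36 + 1)).getD (t - 1) 0
      = (seg P Q (e (i / 36)) (e (i / 36 + 1))).getD (i % 36 + t) 0 := by
    rw [List.getD_eq_getElem?_getD, List.getD_eq_getElem?_getD, List.getElem?_drop]
    congr 2
    omega
  rwa [h3] at h2

theorem gadget_of_check {B : ℕ} {L : LTree} (hB : B ≤ 9) (h : checkAll B P Q L = true) :
    Gadget B (GF P Q) where
  lt := fun e i o ho => (permOK_spec (seg_facts h e i).1).1 o ho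
  inj := fun e i o o' ho ho' he => (permOK_spec (seg_facts h e i).1).2 o o' ho ho' he
  disp := by
    intro e i o o' ho ho' he
    obtain ⟨-, -, h1, -, hlen⟩ := seg_facts h e i
    have h2 := stt_shift h e i 1 (by omega)
    have h3 : (seg P Q (e (i / 36)) (e (i / 36 + 1))).drop (i % 36 + 1)
        = stt P Q e (i + 1) :: (seg P Q (e (i / 36)) (e (i / 36 + 1))).drop (i % 36 + 1 + 1) := by
      rw [h2]
      have h4 : i % 36 + 1 < (seg P Q (e (i / 36)) (e (i / 36 + 1))).length := by
        rw [hlen]; omega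
      rw [List.drop_eq_getElem_cons h4, List.getD_eq_getElem _ _ h4]
    rw [h3] at h1
    exact dispOK_spec h1 o o' ho ho' he
  fwd := by
    intro e i t o o' ht ho ho' hl
    exact (pairOK_spec (pair_fact h e i t ht (by omega))).1 o o' ho ho' hl
  bwd := by
    intro e i t o o' ht ho ho' hl
    exact (pairOK_spec (pair_fact h e i t ht (by omega))).2.1 o o' ho ho' hl
  suf := by
    intro e i t r ht ht' hr hl
    exact (pairOK_spec (pair_fact h e i t ht ht')).2.2.2 r hr hl
  pre := by
    intro e i t r ht ht' hr hl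
    exact (pairOK_spec (pair_fact h e i t ht ht')).2.2.1 r hr hl
  lab := by
    intro e i t ht hl
    have h1 := (seg_facts h e i).2.1
    have h2 := (seg_facts h e (i + t)).2.1
    have h3 : fac (stt P Q e i) 0 B = fac (stt P Q e (i + t)) 0 B :=
      fac_eq (fun l hl' => by rw [Nat.zero_add]; exact hl l hl')
    rw [h3, h2] at h1
    have b1 : ((e (i / 36) : Fin 6) : ℕ) < 6 := (e (i / 36)).2
    have b2 : ((e (i / 36 + 1) : Fin 6) : ℕ) < 6 := (e (i / 36 + 1)).2
    have b3 : ((e ((i + t) / 36) : Fin 6) : ℕ) < 6 := (e ((i + t) / 36)).2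
    have b4 : ((e ((i + t) / 36 + 1) : Fin 6) : ℕ) < 6 := (e ((i + t) / 36 + 1)).2
    have hψ : (i + t) % 36 = i % 36 := by
      split_ifs at h1 <;> omega
    refine ⟨t / 36, by omega, by omega, ?_⟩
    have hdiv : (i + t) / 36 = i / 36 + t / 36 := by omega
    by_cases h4 : i % 36 ≤ 28
    · rw [hψ, if_pos h4, if_pos h4, hdiv] at h1
      have h5 : (i + 7) / 36 = i / 36 := by omega
      rw [h5]
      exact Fin.ext (by omega)
    · rw [hψ, if_neg h4, if_neg h4, hdiv] at h1
      have h5 : (i + 7) / 36 = i / 36 + 1 := by omega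
      rw [h5, show i / 36 + 1 + t / 36 = i / 36 + t / 36 + 1 by omega]
      exact Fin.ext (by omega)

end state

end Pool.Agent.URT
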