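import Mathlib
import Pool.Agent.MP_c4941a_URT.Defs

set_option autoImplicit false

/-!
# The lower bound and the translation between powers and repetitions
-/

namespace Pool.Agent.URT

/-- Combinatorial core of the lower bound. -/
theorem lower_core {j : ℕ} (hj : 5 ≤ j) (w : ℕ → Fin j)
    (hd : ∀ a p m, 1 ≤ m → m ≤ p → p ≤ m * (j - 2) → ¬ ∀ l < m, w (a + l) = w (a + p + l))
    (hrv : ∀ a p m, 1 ≤ m → m ≤ p → p ≤ m * (j - 2) →
      ¬ ∀ l < m, w (a + l) = w (a + p + (m - 1 - l))) : False := by
  have D : ∀ a b, a < b → b ≤ a + (j - 2) → w a ≠ w b := by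
    intro a b hab hb he
    apply hd a (b - a) 1 (by omega) (by omega) (by omega)
    intro l hl
    have : l = 0 := by omega
    subst this
    rw [Nat.add_zero, Nat.add_zero, show a + (b - a) = b by omega]
    exact he
  have TT : ∀ n, ¬ (w (n + (j - 1)) = w n ∧ w (n + 1 + (j - 1)) = w (n + 1)) := by
    rintro n ⟨h1, h2⟩
    apply hd n (j - 1) 2 (by omega) (by omega) (by omega)
    intro l hl
    have : l = 0 ∨ l = 1 := by omega
    rcases this with rfl | rfl
    · exact h1.symm
    · rw [show n + (j - 1) + 1 = n + 1 + (j - 1) by omega]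
      exact h2.symm
  have surj : ∀ n, w (n + (j - 1)) ≠ w n → ∀ x, ∃ l < j, w (n + l) = x := by
    intro n hn x
    let f : Fin j → Fin j := fun l => w (n + l)
    have hf : Function.Injective f := by
      intro a b hab
      have key : ∀ a b : Fin j, a < b → w (n + a) ≠ w (n + b) := by
        intro a b hab he
        have h1 : (a : ℕ) < b := hab
        have h2 := b.2
        by_cases h3 : (b : ℕ) ≤ a + (j - 2)
        · exact D (n + a) (n + b) (by omega) (by omega) he
        · have h4 : (a : ℕ) = 0 := by omega
          have h5 : (b : ℕ) = j - 1 := by omega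
          rw [h4, h5, Nat.add_zero] at he
          exact hn he.symm
      rcases lt_trichotomy a b with h | h | h
      · exact absurd hab (key a b h)
      · exact h
      · exact absurd hab.symm (key b a h)
    obtain ⟨l, hl⟩ := (Finite.injective_iff_surjective.mp hf) x
    exact ⟨l, l.2, hl⟩
  have B : ∀ n, w (n + (j - 1)) ≠ w n → w (n + 1 + (j - 1)) ≠ w (n + 1) → w (n + j) = w n := by
    intro n h1 h2
    obtain ⟨l, hl, hx⟩ := surj n h1 (w (n + j))
    rcases Nat.lt_or_ge l 1 with h3 | h3
    · have : l = 0 := by omega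
      subst this
      exact hx.symm
    · exfalso
      rcases Nat.lt_or_ge l 2 with h4 | h4
      · have : l = 1 := by omega
        subst this
        apply h2
        rw [show n + 1 + (j - 1) = n + j by omega]
        exact hx.symm
      · exact D (n + l) (n + j) (by omega) (by omega) hx
  have FFF : ∀ n, w (n + (j - 1)) ≠ w n → w (n + 1 + (j - 1)) ≠ w (n + 1) →
      w (n + 2 + (j - 1)) ≠ w (n + 2) → False := by
    intro n h1 h2 h3
    have e1 := B n h1 h2
    have e2 := B (n + 1) h2 h3
    apply hd n j 2 (by omega) (by omega) (by omega)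
    intro l hl
    have : l = 0 ∨ l = 1 := by omega
    rcases this with rfl | rfl
    · exact e1.symm
    · rw [show n + j + 1 = n + 1 + j by omega]
      exact e2.symm
  have FTF : ∀ n, w (n + (j - 1)) ≠ w n → w (n + 1 + (j - 1)) = w (n + 1) →
      w (n + 2 + (j - 1)) ≠ w (n + 2) → False := by
    intro n h1 h2 h3
    rw [show n + 1 + (j - 1) = n + j by omega] at h2
    rw [show n + 2 + (j - 1) = n + j + 1 by omega] at h3
    obtain ⟨l, hl, hx⟩ := surj n h1 (w (n + j + 1))
    have hl0 : l = 0 := by
      by_contra h4
      rcases Nat.lt_or_ge l 3 with h5 | h5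
      · have : l = 1 ∨ l = 2 := by omega
        rcases this with rfl | rfl
        · exact D (n + j) (n + j + 1) (by omega) (by omega) (h2.trans hx)
        · exact h3 hx.symm
      · exact D (n + l) (n + j + 1) (by omega) (by omega) hx
    subst hl0
    apply hrv n j 2 (by omega) (by omega) (by omega)
    intro l hl
    have : l = 0 ∨ l = 1 := by omega
    rcases this with rfl | rfl
    · exact hx
    · exact h2.symm
  by_cases E0 : w (0 + (j - 1)) = w 0
  · have E1 : w (0 + 1 + (j - 1)) ≠ w (0 + 1) := fun h => TT 0 ⟨E0, h⟩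
    by_cases E2 : w (0 + 1 + 1 + (j - 1)) = w (0 + 1 + 1)
    · have E3 : w (0 + 1 + 1 + 1 + (j - 1)) ≠ w (0 + 1 + 1 + 1) := fun h => TT (0 + 1 + 1) ⟨E2, h⟩
      exact FTF (0 + 1) E1 E2 E3
    · by_cases E3 : w (0 + 1 + 1 + 1 + (j - 1)) = w (0 + 1 + 1 + 1)
      · have E4 : w (0 + 1 + 1 + 1 + 1 + (j - 1)) ≠ w (0 + 1 + 1 + 1 + 1) :=
          fun h => TT (0 + 1 + 1 + 1) ⟨E3, h⟩
        exact FTF (0 + 1 + 1) E2 E3 E4
      · exact FFF (0 + 1) E1 E2 E3
  · by_cases E1 : w (0 + 1 + (j - 1)) = w (0 + 1)
    · have E2 : w (0 + 1 + 1 + (j - 1)) ≠ w (0 + 1 + 1) := fun h => TT (0 + 1) ⟨E1, h⟩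
      exact FTF 0 E0 E1 E2
    · by_cases E2 : w (0 + 1 + 1 + (j - 1)) = w (0 + 1 + 1)
      · have E3 : w (0 + 1 + 1 + 1 + (j - 1)) ≠ w (0 + 1 + 1 + 1) :=
          fun h => TT (0 + 1 + 1) ⟨E2, h⟩
        exact FTF (0 + 1) E1 E2 E3
      · exact FFF 0 E0 E1 E2

lemma factor_length {A : Type} (w : ℕ → A) (i n : ℕ) : (factor w i n).length = n := by
  simp [factor]

lemma factor_get {A : Type} (w : ℕ → A) (i n l : ℕ) (h : l < n) :
    (factor w i n)[l]? = some (w (i + l)) := by
  simp [factor, List.getElem?_range h]

lemma factor_add {A : Type} (w : ℕ → A) (i m n : ℕ) :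
    factor w i (m + n) = factor w i m ++ factor w (i + m) n := by
  apply List.ext_getElem?
  intro l
  rcases Nat.lt_or_ge l m with h | h
  · rw [List.getElem?_append_left (by rw [factor_length]; exact h), factor_get _ _ _ _ h,
      factor_get _ _ _ _ (by omega)]
  · rw [List.getElem?_append_right (by rw [factor_length]; exact h), factor_length]
    rcases Nat.lt_or_ge l (m + n) with h' | h'
    · rw [factor_get _ _ _ _ h', factor_get _ _ _ _ (by omega)]
      congr 2
      omega
    · rw [List.getElem?_eq_none (by rw [factor_length]; exact h'),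
        List.getElem?_eq_none (by rw [factor_length]; omega)]

/-- A directed or reversed repetition gives an undirected power. -/
lemma power_of_rep {A : Type} (w : ℕ → A) {a p m : ℕ} (hm : 1 ≤ m) (hp : m ≤ p)
    (h : (∀ l < m, w (a + l) = w (a + p + l)) ∨
      (∀ l < m, w (a + l) = w (a + p + (m - 1 - l)))) :
    IsUndirectedPower (((p + m : ℕ) : ℝ) / (p : ℝ)) (factor w a (p + m)) := by
  refine ⟨factor w a m, factor w (a + m) (p - m), factor w (a + p) m, ?_, ?_, ?_, ?_⟩
  · intro h0
    have := congrArg List.length h0
    rw [factor_length] at this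
    simp at this
    omega
  · rcases h with h | h
    · left
      apply List.ext_getElem?
      intro l
      rcases Nat.lt_or_ge l m with hl | hl
      · rw [factor_get _ _ _ _ hl, factor_get _ _ _ _ hl, h l hl]
      · rw [List.getElem?_eq_none (by rw [factor_length]; exact hl),
          List.getElem?_eq_none (by rw [factor_length]; exact hl)]
    · right
      apply List.ext_getElem?
      intro l
      rcases Nat.lt_or_ge l m with hl | hl
      · rw [List.getElem?_reverse (by rw [factor_length]; exact hl), factor_length,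
          factor_get _ _ _ _ hl, factor_get _ _ _ _ (by omega), h (m - 1 - l) (by omega)]
        congr 2
        omega
      · rw [List.getElem?_eq_none (by rw [factor_length]; exact hl),
          List.getElem?_eq_none (by rw [List.length_reverse, factor_length]; exact hl)]
  · obtain ⟨s, rfl⟩ := Nat.exists_eq_add_of_le hp
    rw [factor_add, factor_add, Nat.add_sub_cancel_left]
  · simp only [List.length_append, factor_length]
    congr 2 <;> omega

/-- An undirected power gives a directed or reversed repetition. -/
lemma rep_of_power {A : Type} (w : ℕ → A) {β : ℝ} {i n : ℕ}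
    (h : IsUndirectedPower β (factor w i n)) :
    ∃ p m : ℕ, 1 ≤ m ∧ m ≤ p ∧ β = ((p + m : ℕ) : ℝ) / (p : ℝ) ∧
      ((∀ l < m, w (i + l) = w (i + p + l)) ∨
      (∀ l < m, w (i + l) = w (i + p + (m - 1 - l)))) := by
  obtain ⟨v, x, v', hv, hv', hu, hβ⟩ := h
  have hlen' : v'.length = v.length := by
    rcases hv' with h | h
    · rw [h]
    · rw [h, List.length_reverse]
  have hn : n = v.length + x.length + v.length := by
    have := congrArg List.length hu
    rw [factor_length, List.length_append, List.length_append, hlen'] at this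
    exact this
  have hm : 1 ≤ v.length := by
    rcases Nat.eq_zero_or_pos v.length with h | h
    · exact absurd (List.length_eq_zero_iff.mp h) hv
    · exact h
  have g1 : ∀ l < v.length, v[l]? = some (w (i + l)) := by
    intro l hl
    rw [← factor_get w i n l (by omega), hu, List.getElem?_append_left (by
      rw [List.length_append]; omega), List.getElem?_append_left hl]
  have g2 : ∀ l < v.length, v'[l]? = some (w (i + (v.length + x.length) + l)) := by
    intro l hl
    have h1 := factor_get w i n (v.length + x.length + l) (by omega)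
    rw [hu, List.getElem?_append_right (by rw [List.length_append]; omega),
      List.length_append] at h1
    rw [show v.length + x.length + l - (v.length + x.length) = l by omega] at h1
    rw [h1]
    congr 2
    omega
  refine ⟨v.length + x.length, v.length, hm, by omega, ?_, ?_⟩
  · rw [← hβ]
    simp only [List.length_append, hlen']
  · rcases hv' with h | h
    · left
      intro l hl
      have h1 := g1 l hl
      have h2 := g2 l hl
      rw [h, h1] at h2
      exact Option.some.inj h2
    · right
      intro l hl
      have h1 := g1 l hl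
      have h2 := g2 (v.length - 1 - l) (by omega)
      rw [h, List.getElem?_reverse (by omega)] at h2
      rw [show v.length - 1 - (v.length - 1 - l) = l by omega, h1] at h2
      exact Option.some.inj h2

/-- Lower bound: no infinite word over `j' ≤ j` letters is undirected `α`-free if
`α ≤ (j - 1) / (j - 2)`. -/
theorem lower_bound {j : ℕ} (hj : 5 ≤ j) {α : ℝ} (hα : α ≤ ((j : ℝ) - 1) / ((j : ℝ) - 2))
    {j' : ℕ} (hj' : j' ≤ j) (w : ℕ → Fin j') : ¬ UndirectedFree α w := by
  intro hfree
  have hj5 : (5 : ℝ) ≤ j := by exact_mod_cast hj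
  have key : ∀ a p m, 1 ≤ m → m ≤ p → p ≤ m * (j - 2) →
      ((∀ l < m, w (a + l) = w (a + p + l)) ∨
      (∀ l < m, w (a + l) = w (a + p + (m - 1 - l)))) → False := by
    intro a p m hm hp hpm h
    refine hfree _ ?_ a (p + m) (power_of_rep w hm hp h)
    refine hα.trans ?_
    have hp0 : (0 : ℝ) < p := by exact_mod_cast (show 0 < p by omega)
    have h1 : (p : ℝ) ≤ m * ((j : ℝ) - 2) := by
      have h2 : ((j - 2 : ℕ) : ℝ) = (j : ℝ) - 2 := by
        rw [Nat.cast_sub (by omega)]; norm_num
      rw [← h2]
      exact_mod_cast hpm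
    rw [div_le_div_iff₀ (by linarith) hp0]
    push_cast
    nlinarith
  let f : Fin j' → Fin j := Fin.castLE hj'
  have hf : Function.Injective f := Fin.castLE_injective hj'
  refine lower_core hj (fun n => f (w n)) ?_ ?_
  · intro a p m h1 h2 h3 h
    exact key a p m h1 h2 h3 (Or.inl fun l hl => hf (h l hl))
  · intro a p m h1 h2 h3 h
    exact key a p m h1 h2 h3 (Or.inr fun l hl => hf (h l hl))

end Pool.Agent.URT
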