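import Mathlib
import Pool.Agent.MP_c4941a_URT.Count

set_option autoImplicit false

namespace Pool.Agent.URT

open Finset

/-- The run lengths used in the construction. -/
def RR (N τ : ℕ) : ℕ := if 2 * τ ≤ N then 2 * τ else ((4 * τ / N - 2) / 36 + 1) * N

lemma RR_pos {N : ℕ} (hN : 3 ≤ N) {τ : ℕ} (h : 1 ≤ τ) : 1 ≤ RR N τ := by
  unfold RR
  split_ifs
  · omega
  · exact Nat.mul_pos (by omega) (by omega)

lemma four_pow_bound {N : ℕ} (hN : 3 ≤ N) : 21 * N + 1 ≤ 4 ^ N := by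
  induction N, hN using Nat.le_induction with
  | base => norm_num
  | succ n hn ih => rw [pow_succ]; omega

lemma level_card {N : ℕ} (hN : 3 ≤ N) (n ℓ : ℕ) :
    (((Icc 1 n).filter (fun τ => ¬ 2 * τ ≤ N)).filter (fun τ => (4 * τ / N - 2) / 36 = ℓ)).card
      ≤ 9 * N := by
  have hsub : ((Icc 1 n).filter (fun τ => ¬ 2 * τ ≤ N)).filter (fun τ => (4 * τ / N - 2) / 36 = ℓ)
      ⊆ Ico (((36 * ℓ + 2) * N + 3) / 4) (((36 * ℓ + 2) * N + 3) / 4 + 9 * N) := by
    intro τ hτ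
    simp only [mem_filter, mem_Icc] at hτ
    obtain ⟨⟨-, h1⟩, h2⟩ := hτ
    have hN0 : 0 < N := by omega
    have h3 : 2 ≤ 4 * τ / N := by
      rw [Nat.le_div_iff_mul_le hN0]; omega
    have h4 : 36 * ℓ + 2 ≤ 4 * τ / N := by omega
    have h5 : 4 * τ / N < 36 * ℓ + 38 := by omega
    rw [Nat.le_div_iff_mul_le hN0] at h4
    rw [Nat.div_lt_iff_lt_mul hN0] at h5
    rw [mem_Ico]
    have h6 : (36 * ℓ + 38) * N = (36 * ℓ + 2) * N + 36 * N := by ring
    rw [h6] at h5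
    constructor
    · omega
    · omega
  refine (card_le_card hsub).trans ?_
  rw [Nat.card_Ico]
  omega

theorem RR_sum {N : ℕ} (hN : 3 ≤ N) (n : ℕ) :
    ∑ τ ∈ Icc 1 n, (1 / 4 : ℝ) ^ (RR N τ - 1) ≤ 2 := by
  classical
  rw [← Finset.sum_filter_add_sum_filter_not (Icc 1 n) (fun τ => 2 * τ ≤ N)]
  have hA : ∑ τ ∈ (Icc 1 n).filter (fun τ => 2 * τ ≤ N), (1 / 4 : ℝ) ^ (RR N τ - 1) ≤ 4 / 15 := by
    have h1 : ∀ m : ℕ, ∑ τ ∈ Icc 1 m, (1 / 4 : ℝ) ^ (2 * τ - 1) = 4 / 15 * (1 - (1 / 16) ^ m) := by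
      intro m
      induction m with
      | zero => simp
      | succ m ih =>
        rw [Finset.sum_Icc_succ_top (by omega), ih]
        have : 2 * (m + 1) - 1 = 2 * m + 1 := by omega
        rw [this, pow_succ (1 / 4 : ℝ) (2 * m), pow_mul]
        norm_num
        ring
    calc ∑ τ ∈ (Icc 1 n).filter (fun τ => 2 * τ ≤ N), (1 / 4 : ℝ) ^ (RR N τ - 1)
        = ∑ τ ∈ (Icc 1 n).filter (fun τ => 2 * τ ≤ N), (1 / 4 : ℝ) ^ (2 * τ - 1) := by
          refine sum_congr rfl fun τ hτ => ?_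
          rw [mem_filter] at hτ
          rw [RR, if_pos hτ.2]
      _ ≤ ∑ τ ∈ Icc 1 n, (1 / 4 : ℝ) ^ (2 * τ - 1) :=
          sum_le_sum_of_subset_of_nonneg (filter_subset _ _) (fun _ _ _ => by positivity)
      _ = 4 / 15 * (1 - (1 / 16) ^ n) := h1 n
      _ ≤ 4 / 15 := by
          have : (0 : ℝ) ≤ (1 / 16) ^ n := by positivity
          linarith
  have hB : ∑ τ ∈ (Icc 1 n).filter (fun τ => ¬ 2 * τ ≤ N), (1 / 4 : ℝ) ^ (RR N τ - 1)
      ≤ 12 / 7 := by
    set x : ℝ := (1 / 4) ^ N with hx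
    have hx0 : 0 < x := by positivity
    have hx1 : x ≤ 1 / (21 * N + 1) := by
      rw [hx, one_div_pow]
      apply one_div_le_one_div_of_le (by positivity)
      exact_mod_cast four_pow_bound hN
    have hN3 : (3 : ℝ) ≤ N := by exact_mod_cast hN
    have hx2 : x < 1 := by
      refine lt_of_le_of_lt hx1 ?_
      rw [div_lt_one (by positivity)]
      linarith
    set S := (Icc 1 n).filter (fun τ => ¬ 2 * τ ≤ N) with hS
    have h1 : ∑ τ ∈ S, (1 / 4 : ℝ) ^ (RR N τ - 1)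
        = ∑ τ ∈ S, 4 * x ^ ((4 * τ / N - 2) / 36 + 1) := by
      refine sum_congr rfl fun τ hτ => ?_
      rw [hS, mem_filter] at hτ
      rw [RR, if_neg hτ.2, hx, ← pow_mul]
      have h2 : 1 ≤ ((4 * τ / N - 2) / 36 + 1) * N := Nat.mul_pos (by omega) (by omega)
      have h3 : N * ((4 * τ / N - 2) / 36 + 1) = ((4 * τ / N - 2) / 36 + 1) * N - 1 + 1 := by
        rw [Nat.sub_add_cancel h2, mul_comm]
      rw [h3, pow_succ]
      ring
    rw [h1]
    set Lx : ℕ → ℕ := fun τ => (4 * τ / N - 2) / 36 with hLx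
    have hmaps : ∀ τ ∈ S, Lx τ ∈ range (4 * n + 1) := by
      intro τ hτ
      rw [hS, mem_filter, mem_Icc] at hτ
      rw [mem_range, hLx]
      have : 4 * τ / N ≤ 4 * τ := Nat.div_le_self _ _
      simp only
      omega
    rw [← sum_fiberwise_of_maps_to hmaps (fun τ => 4 * x ^ ((4 * τ / N - 2) / 36 + 1))]
    calc ∑ ℓ ∈ range (4 * n + 1), ∑ τ ∈ S.filter (fun τ => Lx τ = ℓ),
          4 * x ^ ((4 * τ / N - 2) / 36 + 1)
        ≤ ∑ ℓ ∈ range (4 * n + 1), (9 * N : ℝ) * (4 * x ^ (ℓ + 1)) := by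
          refine sum_le_sum fun ℓ _ => ?_
          calc ∑ τ ∈ S.filter (fun τ => Lx τ = ℓ), 4 * x ^ ((4 * τ / N - 2) / 36 + 1)
              = ∑ τ ∈ S.filter (fun τ => Lx τ = ℓ), 4 * x ^ (ℓ + 1) := by
                refine sum_congr rfl fun τ hτ => ?_
                rw [mem_filter] at hτ
                rw [← hτ.2]
            _ = ((S.filter (fun τ => Lx τ = ℓ)).card : ℝ) * (4 * x ^ (ℓ + 1)) := by
                rw [sum_const, nsmul_eq_mul]
            _ ≤ (9 * N : ℝ) * (4 * x ^ (ℓ + 1)) := by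
                gcongr
                exact_mod_cast level_card hN n ℓ
      _ = 36 * N * x * ∑ ℓ ∈ range (4 * n + 1), x ^ ℓ := by
          rw [mul_sum]
          refine sum_congr rfl fun ℓ _ => ?_
          ring
      _ ≤ 36 * N * x * (1 / (1 - x)) := by
          gcongr
          rw [le_div_iff₀ (by linarith), mul_comm, mul_neg_geom_sum]
          have : 0 < x ^ (4 * n + 1) := by positivity
          linarith
      _ ≤ 12 / 7 := by
          rw [mul_one_div, div_le_div_iff₀ (by linarith) (by norm_num)]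
          have h2 : x * (21 * N + 1) ≤ 1 := by
            rwa [le_div_iff₀ (by positivity)] at hx1
          nlinarith
  linarith

/-- The variant sequence. -/
theorem exists_variants {N : ℕ} (hN : 3 ≤ N) :
    ∃ c : ℕ → Fin 6, ∀ τ, 1 ≤ τ → ∀ n, ∃ l < RR N τ, c (n + l) ≠ c (n + l + τ * N) :=
  exists_seq (by omega) (fun _ h => RR_pos hN h) (RR_sum hN)

end Pool.Agent.URT
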