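import Mathlib
import Pool.Agent.MP_c4941a_URT.RSum

set_option autoImplicit false

/-!
# Geometry of the block decomposition and the macro-level argument
-/

namespace Pool.Agent.URT

lemma divmod_of {N q m x : ℕ} (hm : m < N) (hx : x = N * q + m) : x / N = q ∧ x % N = m := by
  subst hx
  constructor
  · rw [Nat.mul_add_div (by omega), Nat.div_eq_of_lt hm, Nat.add_zero]
  · rw [Nat.mul_add_mod, Nat.mod_eq_of_lt hm]

/-- The macro-level contradiction. -/
theorem macro_contra {N : ℕ} (hN : 3 ≤ N) {c : ℕ → Fin 6}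
    (hc : ∀ τ, 1 ≤ τ → ∀ n, ∃ l < RR N τ, c (n + l) ≠ c (n + l + τ * N))
    {g M τ : ℕ} (hτ : 1 ≤ τ) (hM : 4 * τ ≤ M + 1)
    (h : ∀ x, g < x → x ≤ g + M →
      c ((x / N + 7) / 36 * N + x % N) = c (((x / N + 7) / 36 + τ) * N + x % N)) : False := by
  have hN0 : 0 < N := by omega
  have h' : ∀ x, g < x → x ≤ g + M →
      c ((x / N + 7) / 36 * N + x % N) = c ((x / N + 7) / 36 * N + x % N + τ * N) := by
    intro x h1 h2
    rw [h x h1 h2]
    congr 1
    ring
  by_cases hcase : 2 * τ ≤ N
  · have hRR : RR N τ = 2 * τ := if_pos hcase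
    have hx0 := Nat.div_add_mod (g + 1) N
    have hρ := Nat.mod_lt (g + 1) hN0
    set q := (g + 1) / N
    set ρ := (g + 1) % N
    by_cases hrow : ρ + 2 * τ ≤ N
    · obtain ⟨l, hl, hne⟩ := hc τ hτ ((q + 7) / 36 * N + ρ)
      rw [hRR] at hl
      apply hne
      have h1 := divmod_of (N := N) (q := q) (m := ρ + l) (x := g + 1 + l) (by omega) (by omega)
      have h2 := h' (g + 1 + l) (by omega) (by omega)
      rw [h1.1, h1.2] at h2
      rw [← Nat.add_assoc] at h2
      exact h2
    · obtain ⟨l, hl, hne⟩ := hc τ hτ ((q + 1 + 7) / 36 * N)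
      rw [hRR] at hl
      apply hne
      have hq : N * (q + 1) = N * q + N := by ring
      have h1 := divmod_of (N := N) (q := q + 1) (m := l) (x := g + 1 + (N - ρ) + l) (by omega)
        (by rw [hq]; omega)
      have h2 := h' (g + 1 + (N - ρ) + l) (by omega) (by omega)
      rw [h1.1, h1.2] at h2
      exact h2
  · have hRR : RR N τ = ((4 * τ / N - 2) / 36 + 1) * N := if_neg hcase
    set i1 := (g + N) / N with hi1
    have hi1N : g < i1 * N ∧ i1 * N ≤ g + N := by
      have h1 := Nat.div_add_mod (g + N) N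
      have h2 := Nat.mod_lt (g + N) hN0
      have h3 : N * ((g + N) / N) = i1 * N := by rw [hi1, mul_comm]
      omega
    obtain ⟨l, hl, hne⟩ := hc τ hτ ((i1 + 7) / 36 * N)
    rw [hRR] at hl
    apply hne
    set a := l / N with ha
    set j := l % N with hj
    have hlaj : N * a + j = l := Nat.div_add_mod l N
    have hjN : j < N := Nat.mod_lt l hN0
    have haL : a < (4 * τ / N - 2) / 36 + 1 := by
      rw [ha, Nat.div_lt_iff_lt_mul hN0]
      exact hl
    have h36a : 36 * a + 2 ≤ 4 * τ / N := by
      have h2 : 2 ≤ 4 * τ / N := by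
        rw [Nat.le_div_iff_mul_le hN0]
        omega
      omega
    rw [Nat.le_div_iff_mul_le hN0] at h36a
    have e1 : (36 * a + 2) * N = 36 * a * N + 2 * N := by ring
    have e2 : (i1 + 36 * a) * N = i1 * N + 36 * a * N := by ring
    have h1 := divmod_of (N := N) (q := i1 + 36 * a) (m := j) (x := (i1 + 36 * a) * N + j) hjN
      (by ring)
    have h2 := h' ((i1 + 36 * a) * N + j) (by omega) (by omega)
    rw [h1.1, h1.2] at h2
    have h3 : (i1 + 36 * a + 7) / 36 = (i1 + 7) / 36 + a := by omega
    have h4 : ((i1 + 7) / 36 + a) * N + j = (i1 + 7) / 36 * N + l := by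
      rw [← hlaj]; ring
    rw [h3, h4] at h2
    exact h2

/-! ### Geometry -/

/-- Offset of the block `j` in a row. -/
def off (r j : ℕ) : ℕ := 7 * j + min r (2 * j)

/-- Size of the block `j`. -/
def szz (r j : ℕ) : ℕ := off r (j + 1) - off r j

lemma szz_bounds (r j : ℕ) : 7 ≤ szz r j ∧ szz r j ≤ 9 := by
  unfold szz off
  omega

lemma off_succ (r j : ℕ) : off r (j + 1) = off r j + szz r j := by
  unfold szz off
  omega

lemma off_mono (r : ℕ) {i j : ℕ} (h : i ≤ j) : off r i ≤ off r j := by
  unfold off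
  omega

/-- First position of the block `g`. -/
def start (N r g : ℕ) : ℕ := g / N * (7 * N + r) + off r (g % N)

section geo

variable {N r : ℕ}

lemma start_zero : start N r 0 = 0 := by
  simp [start, off]

lemma start_succ (hN : 3 ≤ N) (hr : r ≤ 6) (g : ℕ) :
    start N r (g + 1) = start N r g + szz r (g % N) := by
  have h0 := Nat.div_add_mod g N
  have h1 := Nat.mod_lt g (show 0 < N by omega)
  set q := g / N with hq
  set m := g % N with hm
  unfold start
  rw [← hq, ← hm]
  rcases Nat.lt_or_ge (m + 1) N with h | h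
  · have h2 := divmod_of (N := N) (q := q) (m := m + 1) (x := g + 1) h (by omega)
    rw [h2.1, h2.2, off_succ]
    ring
  · have hq1 : N * (q + 1) = N * q + N := by ring
    have h2 := divmod_of (N := N) (q := q + 1) (m := 0) (x := g + 1) (by omega)
      (by rw [hq1]; omega)
    rw [h2.1, h2.2]
    have h3 : off r m + szz r m = 7 * N + r := by
      rw [← off_succ, show m + 1 = N by omega]
      unfold off
      omega
    have h4 : off r 0 = 0 := by simp [off]
    rw [h4, Nat.add_assoc, h3]
    ring

lemma start_add (hN : 3 ≤ N) (g t : ℕ) :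
    start N r (g + t * N) = start N r g + t * (7 * N + r) := by
  unfold start
  rw [Nat.add_mul_div_right _ _ (by omega), Nat.add_mul_mod_self_right]
  ring

lemma start_lt (hN : 3 ≤ N) (hr : r ≤ 6) (g : ℕ) : start N r g < start N r (g + 1) := by
  rw [start_succ hN hr]
  have := (szz_bounds r (g % N)).1
  omega

lemma start_strictMono (hN : 3 ≤ N) (hr : r ≤ 6) : StrictMono (start N r) :=
  strictMono_nat_of_lt_succ (start_lt hN hr)

lemma start_diff_le (hN : 3 ≤ N) (hr : r ≤ 6) (g m : ℕ) :
    start N r (g + m) ≤ start N r g + 9 * m := by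
  induction m with
  | zero => simp
  | succ m ih =>
    rw [← Nat.add_assoc, start_succ hN hr]
    have := (szz_bounds r ((g + m) % N)).2
    omega

/-- The block containing the position `n`. -/
def blk (N r n : ℕ) : ℕ := Nat.findGreatest (fun g => start N r g ≤ n) n

lemma start_blk_le (n : ℕ) : start N r (blk N r n) ≤ n :=
  Nat.findGreatest_spec (P := fun g => start N r g ≤ n) (Nat.zero_le n) (by
    show start N r 0 ≤ n
    rw [start_zero]; exact Nat.zero_le n)

lemma lt_start_blk (hN : 3 ≤ N) (hr : r ≤ 6) (n : ℕ) : n < start N r (blk N r n + 1) := by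
  by_contra h
  push Not at h
  have h1 : blk N r n + 1 ≤ n := ((start_strictMono hN hr).id_le _).trans h
  have h2 := Nat.le_findGreatest (P := fun g => start N r g ≤ n) h1 h
  have h3 : Nat.findGreatest (fun g => start N r g ≤ n) n = blk N r n := rfl
  omega

lemma blk_eq (hN : 3 ≤ N) (hr : r ≤ 6) {n g : ℕ} (h1 : start N r g ≤ n)
    (h2 : n < start N r (g + 1)) : blk N r n = g := by
  have h3 := start_blk_le (N := N) (r := r) n
  have h4 := lt_start_blk hN hr n
  have h5 := (start_strictMono hN hr).lt_iff_lt.mp (lt_of_le_of_lt h1 h4)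
  have h6 := (start_strictMono hN hr).lt_iff_lt.mp (lt_of_le_of_lt h3 h2)
  omega

lemma blk_eq' (hN : 3 ≤ N) (hr : r ≤ 6) {n g o : ℕ} (h1 : n = start N r g + o)
    (h2 : o < szz r (g % N)) : blk N r n = g :=
  blk_eq hN hr (by omega) (by rw [start_succ hN hr]; omega)

lemma blk_mono (hN : 3 ≤ N) (hr : r ≤ 6) {n n' : ℕ} (h : n ≤ n') : blk N r n ≤ blk N r n' := by
  have h3 := start_blk_le (N := N) (r := r) n
  have h4 := lt_start_blk hN hr n'
  have h5 := (start_strictMono hN hr).lt_iff_lt.mp (lt_of_le_of_lt (h3.trans h) h4)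
  omega

end geo

end Pool.Agent.URT
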