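import Mathlib
import Pool.Agent.MP_c4941a_URT.Macro
import Pool.Agent.MP_c4941a_URT.GadgetSpec

set_option autoImplicit false

/-!
# The infinite word and its freeness
-/

namespace Pool.Agent.URT

lemma Gadget.surj {B : ℕ} {G : (ℕ → Fin 6) → ℕ → ℕ → ℕ} (h : Gadget B G) (e : ℕ → Fin 6)
    (i x : ℕ) (hx : x < B) : ∃ o < B, G e i o = x := by
  let f : Fin B → Fin B := fun o => ⟨G e i o, h.lt e i o o.2⟩
  have hf : Function.Injective f := by
    intro a b hab
    exact Fin.ext (h.inj e i a b a.2 b.2 (congrArg Fin.val hab))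
  obtain ⟨o, ho⟩ := (Finite.injective_iff_surjective.mp hf) ⟨x, hx⟩
  exact ⟨o, o.2, congrArg Fin.val ho⟩

lemma Gadget.disp_iter {B : ℕ} {G : (ℕ → Fin 6) → ℕ → ℕ → ℕ} (h : Gadget B G)
    (e : ℕ → Fin 6) (i : ℕ) : ∀ t o o', o < B → o' < B → G e i o = G e (i + t) o' →
      o ≤ o' + 2 * t := by
  intro t
  induction t with
  | zero =>
    intro o o' ho ho' he
    have := h.inj e i o o' ho ho' he
    omega
  | succ t ih =>
    intro o o' ho ho' he
    obtain ⟨o'', ho'', he''⟩ := h.surj e (i + t) (G e i o) (h.lt e i o ho)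
    have h1 := ih o o'' ho ho'' he''.symm
    have h2 := h.disp e (i + t) o'' o' ho'' ho' (he''.trans he)
    omega

section word

variable {N r : ℕ} {c : ℕ → Fin 6} {GB : ℕ → (ℕ → Fin 6) → ℕ → ℕ → ℕ}

/-- The variants of the block column `j`. -/
def ev (N : ℕ) (c : ℕ → Fin 6) (j : ℕ) : ℕ → Fin 6 := fun I => c (I * N + j)

/-- The letter at offset `o` of the block `g`. -/
def AA (N r : ℕ) (c : ℕ → Fin 6) (GB : ℕ → (ℕ → Fin 6) → ℕ → ℕ → ℕ) (g o : ℕ) : ℕ :=
  GB (szz r (g % N)) (ev N c (g % N)) (g / N) o

/-- The word. -/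
def ww (N r : ℕ) (c : ℕ → Fin 6) (GB : ℕ → (ℕ → Fin 6) → ℕ → ℕ → ℕ) (n : ℕ) : ℕ :=
  off r (blk N r n % N) + AA N r c GB (blk N r n) (n - start N r (blk N r n))

variable (hN : 3 ≤ N) (hr : r ≤ 6) (hG : ∀ B, 7 ≤ B → B ≤ 9 → Gadget B (GB B))

include hG in
lemma hGs (j : ℕ) : Gadget (szz r j) (GB (szz r j)) :=
  hG _ (szz_bounds r j).1 (szz_bounds r j).2

include hN hr in
lemma ww_eq {n g o : ℕ} (h1 : n = start N r g + o) (h2 : o < szz r (g % N)) :
    ww N r c GB n = off r (g % N) + AA N r c GB g o := by
  unfold ww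
  rw [blk_eq' hN hr h1 h2]
  congr 2
  omega

include hN in
lemma AA_add (g t o : ℕ) : AA N r c GB (g + t * N) o =
    GB (szz r (g % N)) (ev N c (g % N)) (g / N + t) o := by
  unfold AA
  rw [Nat.add_mul_div_right _ _ (by omega), Nat.add_mul_mod_self_right]

include hG in
lemma AA_lt (g o : ℕ) (ho : o < szz r (g % N)) : AA N r c GB g o < szz r (g % N) :=
  (hGs hG _).lt _ _ _ ho

include hN hr hG in
lemma ww_lt (n : ℕ) : ww N r c GB n < 7 * N + r := by
  have h1 := start_blk_le (N := N) (r := r) n
  have h2 := lt_start_blk hN hr n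
  rw [start_succ hN hr] at h2
  have h3 := AA_lt (N := N) (r := r) (c := c) hG (blk N r n) (n - start N r (blk N r n)) (by omega)
  unfold ww
  have h4 : blk N r n % N < N := Nat.mod_lt _ (by omega)
  have h5 : off r (blk N r n % N) + szz r (blk N r n % N) ≤ off r N := by
    rw [← off_succ]
    exact off_mono r h4
  have h6 : off r N = 7 * N + r := by unfold off; omega
  omega

include hG in
/-- Equal letters lie in the same block column. -/
lemma letter_eq {g g' o o' : ℕ} (ho : o < szz r (g % N)) (ho' : o' < szz r (g' % N))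
    (h : off r (g % N) + AA N r c GB g o = off r (g' % N) + AA N r c GB g' o') :
    g % N = g' % N ∧ AA N r c GB g o = AA N r c GB g' o' := by
  have h1 := AA_lt (c := c) hG g o ho
  have h2 := AA_lt (c := c) hG g' o' ho'
  have h3 : g % N = g' % N := by
    rcases Nat.lt_trichotomy (g % N) (g' % N) with h4 | h4 | h4
    · have h5 := off_mono r (show g % N + 1 ≤ g' % N from h4)
      rw [off_succ] at h5
      omega
    · exact h4
    · have h5 := off_mono r (show g' % N + 1 ≤ g % N from h4)
      rw [off_succ] at h5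
      omega
  refine ⟨h3, ?_⟩
  rw [h3] at h
  omega

include hN in
lemma mod_succ_ne (g : ℕ) : (g + 1) % N ≠ g % N := by
  intro h
  have h1 := Nat.div_add_mod g N
  have h2 := Nat.mod_lt g (show 0 < N by omega)
  rcases Nat.lt_or_ge (g % N + 1) N with h3 | h3
  · have h4 := divmod_of (N := N) (q := g / N) (m := g % N + 1) (x := g + 1) h3 (by omega)
    omega
  · have hq : N * (g / N + 1) = N * (g / N) + N := by ring
    have h4 := divmod_of (N := N) (q := g / N + 1) (m := 0) (x := g + 1) (by omega)
      (by rw [hq]; omega)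
    omega

include hN in
lemma mod_succ2_ne (g : ℕ) : (g + 2) % N ≠ g % N := by
  intro h
  have h1 := Nat.div_add_mod g N
  have h2 := Nat.mod_lt g (show 0 < N by omega)
  have hq : N * (g / N + 1) = N * (g / N) + N := by ring
  rcases Nat.lt_or_ge (g % N + 2) N with h3 | h3
  · have h4 := divmod_of (N := N) (q := g / N) (m := g % N + 2) (x := g + 2) h3 (by omega)
    omega
  · have h4 := divmod_of (N := N) (q := g / N + 1) (m := g % N + 2 - N) (x := g + 2) (by omega)
      (by rw [hq]; omega)
    omega

include hN hr hG in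
/-- Two occurrences of a letter. -/
lemma occ {n n' : ℕ} (hnn : n < n') (h : ww N r c GB n = ww N r c GB n') :
    ∃ t, 1 ≤ t ∧ blk N r n' = blk N r n + t * N ∧ t * (7 * N + r) ≤ n' - n + 2 * t := by
  set g := blk N r n with hg
  set g' := blk N r n' with hg'
  have a1 : start N r g ≤ n := start_blk_le n
  have a2 : n < start N r (g + 1) := lt_start_blk hN hr n
  have b1 : start N r g' ≤ n' := start_blk_le n'
  have b2 : n' < start N r (g' + 1) := lt_start_blk hN hr n'
  rw [start_succ hN hr] at a2 b2
  have hgg : g ≤ g' := blk_mono hN hr hnn.le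
  have h1 : off r (g % N) + AA N r c GB g (n - start N r g)
      = off r (g' % N) + AA N r c GB g' (n' - start N r g') := h
  obtain ⟨h2, h3⟩ := letter_eq (N := N) (r := r) (c := c) hG (by omega) (by omega) h1
  obtain ⟨t, ht⟩ : ∃ t, g' = g + t * N := by
    refine ⟨g' / N - g / N, ?_⟩
    have e1 := Nat.div_add_mod g N
    have e2 := Nat.div_add_mod g' N
    have e3 : g / N ≤ g' / N := Nat.div_le_div_right hgg
    have e4 : (g' / N - g / N) * N = N * (g' / N) - N * (g / N) := by
      rw [Nat.sub_mul, mul_comm, mul_comm (g / N)]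
    have e5 : N * (g / N) ≤ N * (g' / N) := Nat.mul_le_mul_left _ e3
    omega
  have h4 : start N r g' = start N r g + t * (7 * N + r) := by rw [ht, start_add hN]
  rw [← h2] at b2
  have h5 : AA N r c GB g (n - start N r g) = AA N r c GB (g + t * N) (n' - start N r g') := by
    rw [← ht]; exact h3
  rw [AA_add hN] at h5
  have h6 := (hGs (r := r) hG (g % N)).disp_iter (ev N c (g % N)) (g / N) t _ _ (by omega) (by omega) h5
  refine ⟨t, ?_, ht, by omega⟩
  by_contra h7
  have h8 : t = 0 := by omega
  subst h8
  have h9 := (hGs (r := r) hG (g % N)).inj (ev N c (g % N)) (g / N) _ _ (by omega) (by omega) h5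
  simp at h4
  omega

include hN hr hG in
/-- No common factor of length `t + 1` at time distance `t`. -/
theorem no_fwd
    (hc : ∀ τ, 1 ≤ τ → ∀ n, ∃ l < RR N τ, c (n + l) ≠ c (n + l + τ * N))
    {n n' t : ℕ} (ht : 1 ≤ t) (hb : blk N r n' = blk N r n + t * N)
    (h : ∀ l ≤ t, ww N r c GB (n + l) = ww N r c GB (n' + l)) : False := by
  set g := blk N r n with hg
  have a1 : start N r g ≤ n := start_blk_le n
  have a2 : n < start N r (g + 1) := lt_start_blk hN hr n
  have b1 : start N r (g + t * N) ≤ n' := by rw [← hb]; exact start_blk_le n'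
  have b2 : n' < start N r (g + t * N + 1) := by rw [← hb]; exact lt_start_blk hN hr n'
  obtain ⟨o, ho⟩ : ∃ o, n = start N r g + o := ⟨n - start N r g, by omega⟩
  obtain ⟨o', ho'⟩ : ∃ o', n' = start N r (g + t * N) + o' :=
    ⟨n' - start N r (g + t * N), by omega⟩
  have hmod : (g + t * N) % N = g % N := Nat.add_mul_mod_self_right _ _ _
  set B := szz r (g % N) with hB
  have hBb := szz_bounds r (g % N)
  rw [← hB] at hBb
  have oB : o < B := by rw [start_succ hN hr] at a2; omega
  have oB' : o' < B := by rw [start_succ hN hr, hmod] at b2; omega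
  have s1 : start N r (g + 1) = start N r g + B := start_succ hN hr g
  have s2 : start N r (g + t * N + 1) = start N r (g + t * N) + B := by
    rw [start_succ hN hr, hmod]
  -- comparison of letters
  have cmp : ∀ l ≤ t, ∀ x y x' y', n + l = start N r x + y → y < szz r (x % N) →
      n' + l = start N r x' + y' → y' < szz r (x' % N) →
      x % N = x' % N ∧ AA N r c GB x y = AA N r c GB x' y' := by
    intro l hl x y x' y' e1 e2 e3 e4
    have h1 := h l hl
    rw [ww_eq hN hr e1 e2, ww_eq hN hr e3 e4] at h1
    exact letter_eq hG e2 e4 h1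
  have h7g : 7 ≤ szz r ((g + 1) % N) := (szz_bounds r _).1
  have h7g' : 7 ≤ szz r ((g + t * N + 1) % N) := (szz_bounds r _).1
  have hmod1 : (g + t * N + 1) % N = (g + 1) % N := by
    rw [show g + t * N + 1 = g + 1 + t * N by ring, Nat.add_mul_mod_self_right]
  by_cases hA : o + t < B
  · by_cases hA' : o' + t < B
    · -- inside one block
      apply (hGs (r := r) hG (g % N)).fwd (ev N c (g % N)) (g / N) t o o' ht hA hA'
      intro l hl
      have h1 := (cmp l hl g (o + l) (g + t * N) (o' + l) (by omega) (by omega) (by omega)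
        (by rw [hmod]; omega)).2
      rw [AA_add hN] at h1
      exact h1
    · have h1 := (cmp (B - o') (by omega) g (o + (B - o')) (g + t * N + 1) 0 (by omega) (by omega)
        (by omega) (by omega)).1
      rw [hmod1] at h1
      exact mod_succ_ne hN g h1.symm
  · -- the factor leaves the block `g`
    have hoo : o' = o := by
      rcases Nat.lt_trichotomy o' o with h1 | h1 | h1
      · exfalso
        have h2 := (cmp (B - o) (by omega) (g + 1) 0 (g + t * N) (o' + (B - o)) (by omega)
          (by omega) (by omega) (by rw [hmod]; omega)).1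
        rw [hmod] at h2
        exact mod_succ_ne hN g h2
      · exact h1
      · exfalso
        have h2 := (cmp (B - o') (by omega) g (o + (B - o')) (g + t * N + 1) 0 (by omega)
          (by omega) (by omega) (by omega)).1
        rw [hmod1] at h2
        exact mod_succ_ne hN g h2.symm
    subst hoo
    have key : ∀ x y, y < szz r (x % N) → n ≤ start N r x + y → start N r x + y ≤ n + t →
        AA N r c GB x y = AA N r c GB (x + t * N) y := by
      intro x y hy h1 h2
      refine (cmp (start N r x + y - n) (by omega) x y (x + t * N) y (by omega) hy ?_ ?_).2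
      · rw [start_add hN] at ho' ⊢
        omega
      · rw [Nat.add_mul_mod_self_right]; exact hy
    set g1 := blk N r (n + t) with hg1
    have c1 : start N r g1 ≤ n + t := start_blk_le (n + t)
    have c2 : n + t < start N r (g1 + 1) := lt_start_blk hN hr (n + t)
    have hlt : g + 1 ≤ g1 := by
      have : start N r (g + 1) < start N r (g1 + 1) := by omega
      have := (start_strictMono hN hr).lt_iff_lt.mp this
      omega
    rcases Nat.eq_or_lt_of_le hlt with hB1 | hB2
    · -- exactly two blocks
      rw [← hB1] at c2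
      have s3 : start N r (g + 1 + 1) = start N r (g + 1) + szz r ((g + 1) % N) :=
        start_succ hN hr _
      have h9g : szz r ((g + 1) % N) ≤ 9 := (szz_bounds r _).2
      have ht17 : t ≤ 17 := by omega
      have f1 := (hGs (r := r) hG (g % N)).suf (ev N c (g % N)) (g / N) t (B - o') ht ht17
        (by omega) (by
          intro l hl
          have h1 := key g (B - 1 - l) (by omega) (by omega) (by omega)
          rw [AA_add hN] at h1
          exact h1)
      have f2 := (hGs (r := r) hG ((g + 1) % N)).pre (ev N c ((g + 1) % N)) ((g + 1) / N) t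
        (n + t + 1 - start N r (g + 1)) ht ht17 (by omega) (by
          intro l hl
          have h1 := key (g + 1) l (by omega) (by omega) (by omega)
          rw [AA_add hN] at h1
          exact h1)
      omega
    · -- at least one full block
      have lab : ∀ x, g < x → x < g1 → ∃ τ, 1 ≤ τ ∧ t = 36 * τ ∧
          ev N c (x % N) ((x / N + 7) / 36) = ev N c (x % N) ((x / N + 7) / 36 + τ) := by
        intro x hx1 hx2
        apply (hGs (r := r) hG (x % N)).lab (ev N c (x % N)) (x / N) t ht
        intro y hy
        have e1 : start N r (g + 1) ≤ start N r x := (start_strictMono hN hr).monotone hx1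
        have e2 : start N r (x + 1) ≤ start N r g1 := (start_strictMono hN hr).monotone hx2
        rw [start_succ hN hr x] at e2
        have h1 := key x y hy (by omega) (by omega)
        rw [AA_add hN] at h1
        exact h1
      obtain ⟨τ, hτ, htτ, -⟩ := lab (g + 1) (by omega) hB2
      have hlen := start_diff_le hN hr g (g1 + 1 - g)
      rw [show g + (g1 + 1 - g) = g1 + 1 by omega] at hlen
      apply macro_contra hN hc (g := g) (M := g1 - g - 1) (τ := τ) hτ (by omega)
      intro x hx1 hx2
      obtain ⟨τ', -, htτ', hlab⟩ := lab x hx1 (by omega)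
      have : τ' = τ := by omega
      subst this
      exact hlab

include hN hr hG in
/-- No common reversed factor of length `t + 1` at time distance `t`. -/
theorem no_bwd {n n' t : ℕ} (ht : 1 ≤ t) (htn : t ≤ n) (hb : blk N r n' = blk N r n + t * N)
    (h : ∀ l ≤ t, ww N r c GB (n - l) = ww N r c GB (n' + l)) : False := by
  set g := blk N r n with hg
  have a1 : start N r g ≤ n := start_blk_le n
  have a2 : n < start N r (g + 1) := lt_start_blk hN hr n
  have b1 : start N r (g + t * N) ≤ n' := by rw [← hb]; exact start_blk_le n'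
  have b2 : n' < start N r (g + t * N + 1) := by rw [← hb]; exact lt_start_blk hN hr n'
  obtain ⟨o, ho⟩ : ∃ o, n = start N r g + o := ⟨n - start N r g, by omega⟩
  obtain ⟨o', ho'⟩ : ∃ o', n' = start N r (g + t * N) + o' :=
    ⟨n' - start N r (g + t * N), by omega⟩
  have hmod : (g + t * N) % N = g % N := Nat.add_mul_mod_self_right _ _ _
  set B := szz r (g % N) with hB
  have hBb := szz_bounds r (g % N)
  rw [← hB] at hBb
  have oB : o < B := by rw [start_succ hN hr] at a2; omega
  have oB' : o' < B := by rw [start_succ hN hr, hmod] at b2; omega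
  have s1 : start N r (g + 1) = start N r g + B := start_succ hN hr g
  have s2 : start N r (g + t * N + 1) = start N r (g + t * N) + B := by
    rw [start_succ hN hr, hmod]
  have cmp : ∀ l ≤ t, ∀ x y x' y', n - l = start N r x + y → y < szz r (x % N) →
      n' + l = start N r x' + y' → y' < szz r (x' % N) →
      x % N = x' % N ∧ AA N r c GB x y = AA N r c GB x' y' := by
    intro l hl x y x' y' e1 e2 e3 e4
    have h1 := h l hl
    rw [ww_eq hN hr e1 e2, ww_eq hN hr e3 e4] at h1
    exact letter_eq hG e2 e4 h1
  have h7g' : 7 ≤ szz r ((g + t * N + 1) % N) := (szz_bounds r _).1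
  have hmod1 : (g + t * N + 1) % N = (g + 1) % N := by
    rw [show g + t * N + 1 = g + 1 + t * N by ring, Nat.add_mul_mod_self_right]
  by_cases hA : t ≤ o ∧ o' + t < B
  · apply (hGs (r := r) hG (g % N)).bwd (ev N c (g % N)) (g / N) t (o - t) o' ht (by omega) hA.2
    intro l hl
    have h1 := (cmp l hl g (o - t + (t - l)) (g + t * N) (o' + l) (by omega) (by omega) (by omega)
      (by rw [hmod]; omega)).2
    rw [AA_add hN] at h1
    exact h1
  · -- first exit
    have hg0 : o + 1 ≤ t → ∃ g0, g = g0 + 1 := by
      intro h1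
      refine ⟨g - 1, ?_⟩
      by_contra h2
      have h3 : g = 0 := by omega
      rw [h3, start_zero] at ho
      omega
    rcases Nat.lt_trichotomy (o + 1) (B - o') with h1 | h1 | h1
    · have h2 : o + 1 ≤ t := by omega
      obtain ⟨g0, hg0⟩ := hg0 h2
      have s3 : start N r (g0 + 1) = start N r g0 + szz r (g0 % N) := start_succ hN hr g0
      have h7 : 7 ≤ szz r (g0 % N) := (szz_bounds r _).1
      rw [← hg0] at s3
      have h3 := (cmp (o + 1) h2 g0 (szz r (g0 % N) - 1) (g + t * N) (o' + (o + 1)) (by omega)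
        (by omega) (by omega) (by rw [hmod]; omega)).1
      rw [hmod, hg0] at h3
      exact mod_succ_ne hN g0 h3.symm
    · have h2 : o + 1 ≤ t := by omega
      obtain ⟨g0, hg0⟩ := hg0 h2
      have s3 : start N r (g0 + 1) = start N r g0 + szz r (g0 % N) := start_succ hN hr g0
      have h7 : 7 ≤ szz r (g0 % N) := (szz_bounds r _).1
      rw [← hg0] at s3
      have h3 := (cmp (o + 1) h2 g0 (szz r (g0 % N) - 1) (g + t * N + 1) 0 (by omega)
        (by omega) (by omega) (by omega)).1
      rw [hmod1, hg0] at h3
      exact mod_succ2_ne hN g0 h3.symm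
    · have h2 : B - o' ≤ t := by omega
      have h3 := (cmp (B - o') h2 g (o - (B - o')) (g + t * N + 1) 0 (by omega)
        (by omega) (by omega) (by omega)).1
      rw [hmod1] at h3
      exact mod_succ_ne hN g h3.symm

include hN hr hG in
/-- The word has no directed repetition. -/
theorem no_directed
    (hc : ∀ τ, 1 ≤ τ → ∀ n, ∃ l < RR N τ, c (n + l) ≠ c (n + l + τ * N))
    {a p m : ℕ} (hp : 1 ≤ p) (hm : 1 ≤ m) (hlt : p < m * (7 * N + r - 2))
    (h : ∀ l < m, ww N r c GB (a + l) = ww N r c GB (a + p + l)) : False := by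
  have h0 := h 0 (by omega)
  simp only [Nat.add_zero] at h0
  obtain ⟨t, ht, hb, hd⟩ := occ hN hr hG (show a < a + p by omega) h0
  have h1 : t * (7 * N + r - 2) ≤ p := by
    obtain ⟨K, hK⟩ : ∃ K, 7 * N + r = K + 2 := ⟨7 * N + r - 2, by omega⟩
    rw [hK] at hd ⊢
    rw [Nat.add_sub_cancel]
    rw [Nat.mul_add] at hd
    omega
  have h2 : t < m := by
    by_contra hcon
    push Not at hcon
    have := Nat.mul_le_mul_right (7 * N + r - 2) hcon
    omega
  exact no_fwd hN hr hG hc ht hb (fun l hl => h l (by omega))

include hN hr hG in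
/-- The word has no reversed repetition. -/
theorem no_reversed {a p m : ℕ} (hm : 1 ≤ m) (hpm : m ≤ p) (hlt : p < m * (7 * N + r - 2))
    (h : ∀ l < m, ww N r c GB (a + l) = ww N r c GB (a + p + (m - 1 - l))) : False := by
  have h0 := h (m - 1) (by omega)
  rw [Nat.sub_self, Nat.add_zero] at h0
  obtain ⟨t, ht, hb, hd⟩ := occ hN hr hG (show a + (m - 1) < a + p by omega) h0
  have h1 : t * (7 * N + r - 2) ≤ p := by
    obtain ⟨K, hK⟩ : ∃ K, 7 * N + r = K + 2 := ⟨7 * N + r - 2, by omega⟩
    rw [hK] at hd ⊢
    rw [Nat.add_sub_cancel]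
    rw [Nat.mul_add] at hd
    omega
  have h2 : t < m := by
    by_contra hcon
    push Not at hcon
    have := Nat.mul_le_mul_right (7 * N + r - 2) hcon
    omega
  refine no_bwd (c := c) hN hr hG ht (by omega) hb (fun l hl => ?_)
  have h3 := h (m - 1 - l) (by omega)
  rw [show m - 1 - (m - 1 - l) = l by omega] at h3
  rw [show a + (m - 1) - l = a + (m - 1 - l) by omega]
  exact h3

end word

end Pool.Agent.URT
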