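import Mathlib
import Pool.Agent.MP_c4941a_URT.Lower
import Pool.Agent.MP_c4941a_URT.Word
import Pool.Agent.MP_c4941a_URT.Table7
import Pool.Agent.MP_c4941a_URT.Table8
import Pool.Agent.MP_c4941a_URT.Table9

set_option autoImplicit false

/-!
# The upper bound and the value of the threshold
-/

namespace Pool.Agent.URT

/-- The three gadgets. -/
def GBB (B : ℕ) : (ℕ → Fin 6) → ℕ → ℕ → ℕ :=
  if B = 7 then GF P7 Q7 else if B = 8 then GF P8 Q8 else GF P9 Q9

lemma gadget_all : ∀ B, 7 ≤ B → B ≤ 9 → Gadget B (GBB B) := by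
  intro B h1 h2
  have : B = 7 ∨ B = 8 ∨ B = 9 := by omega
  rcases this with rfl | rfl | rfl
  · exact gadget7
  · exact gadget8
  · exact gadget9

/-- Upper bound: over `k ≥ 21` letters there is an infinite word that is undirected `α`-free for
all `α > (k - 1) / (k - 2)`. -/
theorem upper_bound {k : ℕ} (hk : 21 ≤ k) :
    ∃ w : ℕ → Fin k, ∀ α : ℝ, ((k : ℝ) - 1) / ((k : ℝ) - 2) < α → UndirectedFree α w := by
  have hN : 3 ≤ k / 7 := by omega
  have hr : k % 7 ≤ 6 := by omega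
  have hkk : 7 * (k / 7) + k % 7 = k := by omega
  obtain ⟨c, hc⟩ := exists_variants hN
  let w : ℕ → Fin k := fun n => ⟨ww (k / 7) (k % 7) c GBB n, by
    have := ww_lt (c := c) hN hr gadget_all n
    omega⟩
  refine ⟨w, fun α hα β hβ i n hpow => ?_⟩
  obtain ⟨p, m, hm, hp, hβe, hrep⟩ := rep_of_power w hpow
  have hk21 : (21 : ℝ) ≤ k := by exact_mod_cast hk
  have hp0 : (0 : ℝ) < p := by exact_mod_cast (show 0 < p by omega)
  have h1 : ((k : ℝ) - 1) / ((k : ℝ) - 2) < ((p + m : ℕ) : ℝ) / (p : ℝ) := by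
    rw [← hβe]; exact lt_of_lt_of_le hα hβ
  rw [div_lt_div_iff₀ (by linarith) hp0] at h1
  push_cast at h1
  have h2 : (p : ℝ) < m * ((k : ℝ) - 2) := by nlinarith
  have h3 : ((k - 2 : ℕ) : ℝ) = (k : ℝ) - 2 := by
    rw [Nat.cast_sub (by omega)]; norm_num
  rw [← h3] at h2
  have h4 : p < m * (7 * (k / 7) + k % 7 - 2) := by
    rw [hkk]
    exact_mod_cast h2
  rcases hrep with h | h
  · exact no_directed hN hr gadget_all hc (show 1 ≤ p by omega) hm h4
      (fun l hl => congrArg Fin.val (h l hl))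
  · exact no_reversed hN hr gadget_all hm hp h4 (fun l hl => congrArg Fin.val (h l hl))

/-- The value of the undirected repetition threshold. -/
theorem RTu_eq {k : ℕ} (hk : 22 ≤ k) : RTu k = ((k : ℝ) - 1) / ((k : ℝ) - 2) := by
  have hk22 : (22 : ℝ) ≤ k := by exact_mod_cast hk
  obtain ⟨w, hw⟩ := upper_bound (show 21 ≤ k by omega)
  have hk1 : ((k - 1 : ℕ) : ℝ) = (k : ℝ) - 1 := by
    rw [Nat.cast_sub (by omega)]; norm_num
  -- values above the threshold
  have hFu : ∀ α : ℝ, ((k : ℝ) - 1) / ((k : ℝ) - 2) < α → α ≤ ((k : ℝ) - 2) / ((k : ℝ) - 3) →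
      Fu α = k := by
    intro α h1 h2
    have hmem : k ∈ {k : ℕ | ∃ w : ℕ → Fin k, UndirectedFree α w} := ⟨w, hw α h1⟩
    apply le_antisymm (Nat.sInf_le hmem)
    by_contra h3
    push Not at h3
    obtain ⟨w', hw'⟩ := Nat.sInf_mem (⟨k, hmem⟩ : {k : ℕ | ∃ w : ℕ → Fin k,
      UndirectedFree α w}.Nonempty)
    refine lower_bound (j := k - 1) (by omega) (α := α) ?_ (j' := Fu α) ?_ w' hw'
    · rw [hk1]
      have e1 : (k : ℝ) - 1 - 1 = k - 2 := by ring
      have e2 : (k : ℝ) - 1 - 2 = k - 3 := by ring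
      rw [e1, e2]
      exact h2
    · have h4 : Fu α < k := h3
      omega
  have hab : ((k : ℝ) - 1) / ((k : ℝ) - 2) < ((k : ℝ) - 2) / ((k : ℝ) - 3) := by
    rw [div_lt_div_iff₀ (by linarith) (by linarith)]
    nlinarith
  have ha1 : 1 < ((k : ℝ) - 1) / ((k : ℝ) - 2) := by
    rw [lt_div_iff₀ (by linarith)]
    linarith
  have hb2 : ((k : ℝ) - 2) / ((k : ℝ) - 3) ≤ 2 := by
    rw [div_le_iff₀ (by linarith)]
    linarith
  unfold RTu
  apply csInf_eq_of_forall_ge_of_forall_gt_exists_lt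
  · exact ⟨((k : ℝ) - 2) / ((k : ℝ) - 3), ha1.trans hab, hb2, hFu _ hab le_rfl⟩
  · rintro α ⟨-, -, h3⟩
    by_contra h4
    push Not at h4
    have hne : {k : ℕ | ∃ w : ℕ → Fin k, UndirectedFree α w}.Nonempty := by
      by_contra h5
      rw [Set.not_nonempty_iff_eq_empty] at h5
      unfold Fu at h3
      rw [h5, Nat.sInf_empty] at h3
      omega
    obtain ⟨w', hw'⟩ := Nat.sInf_mem hne
    exact lower_bound (j := k) (by omega) (α := α) h4.le (j' := Fu α) h3.le w' hw'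
  · intro y hy
    refine ⟨min (((((k : ℝ) - 1) / ((k : ℝ) - 2)) + y) / 2) (((k : ℝ) - 2) / ((k : ℝ) - 3)),
      ⟨?_, ?_, ?_⟩, ?_⟩
    · rw [lt_min_iff]
      exact ⟨by linarith, by linarith⟩
    · exact (min_le_right _ _).trans hb2
    · apply hFu
      · rw [lt_min_iff]
        exact ⟨by linarith, hab⟩
      · exact min_le_right _ _
    · exact lt_of_le_of_lt (min_le_left _ _) (by linarith)

end Pool.Agent.URT
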